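import Pool.Agent.N566.VS.K9B
import Pool.Agent.N561.C.Stm

/-!
# Clasps: the two descriptions of the critical value (job K9)
-/

set_option autoImplicit false

namespace Pool.Agent.N566.VS

open Filter Topology Metric
open Pool.Agent.W711.HT Pool.Agent.N561
open scoped Real

theorem ccr (h : S_CSG) : S_CCR := by
  obtain ⟨r₁, c, C, h⟩ := h
  intro g hg
  exact main h.hr.1 h.san h.sder2 g hg

end Pool.Agent.N566.VS
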