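import Mathlib
import Pool.Agent.N561.A.Stm

/-!
# S_FAR, part B: the potential near `0`
(helper566, subtask VS/B2 of helper561)
-/

set_option autoImplicit false

namespace Pool.Agent.N566.VS

open Filter Finset Topology Metric
open Pool.Agent.W711.HT Pool.Agent.N561
open scoped Real
open Complex (I)

lemma Rc_open (a b : ℝ) : IsOpen (Rc a b) := by
  have h : Rc a b = {z : ℂ | |z.re| < a} ∩ {z : ℂ | |z.im| < b} := rfl
  rw [h]
  exact (isOpen_lt Complex.continuous_re.abs continuous_const).inter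
    (isOpen_lt Complex.continuous_im.abs continuous_const)

lemma Rc_mono {a b a' b' : ℝ} (h1 : a ≤ a') (h2 : b ≤ b') : Rc a b ⊆ Rc a' b' := fun _ hz =>
  ⟨lt_of_lt_of_le hz.1 h1, lt_of_lt_of_le hz.2 h2⟩

lemma Rc_ball {a b t a' b' : ℝ} (h1 : a + t < a') (h2 : b + t < b') {z : ℂ} (hz : |z.re| ≤ a ∧ |z.im| ≤ b) :
    closedBall z t ⊆ Rc a' b' := by
  intro w hw
  rw [mem_closedBall, dist_eq_norm] at hw
  have e1 : |w.re| ≤ |z.re| + ‖w - z‖ := by
    have h3 : |(w - z).re| ≤ ‖w - z‖ := Complex.abs_re_le_norm _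
    rw [Complex.sub_re] at h3
    have := abs_sub_abs_le_abs_sub w.re z.re
    linarith
  have e2 : |w.im| ≤ |z.im| + ‖w - z‖ := by
    have h3 : |(w - z).im| ≤ ‖w - z‖ := Complex.abs_im_le_norm _
    rw [Complex.sub_im] at h3
    have := abs_sub_abs_le_abs_sub w.im z.im
    linarith
  exact ⟨by linarith [hz.1], by linarith [hz.2]⟩

lemma convex_box (a b : ℝ) : Convex ℝ {z : ℂ | |z.re| ≤ a ∧ |z.im| ≤ b} := by
  have h : {z : ℂ | |z.re| ≤ a ∧ |z.im| ≤ b} =
      {z : ℂ | -a ≤ z.re} ∩ {z : ℂ | z.re ≤ a} ∩ ({z : ℂ | -b ≤ z.im} ∩ {z : ℂ | z.im ≤ b}) := by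
    ext z
    simp only [Set.mem_ofPred_eq, Set.mem_inter_iff, abs_le]
  rw [h]
  exact ((convex_halfSpace_re_ge _).inter (convex_halfSpace_re_le _)).inter
    ((convex_halfSpace_im_ge _).inter (convex_halfSpace_im_le _))

/-- an even function with negative second derivative -/
lemma even_pot {s : ℂ → ℂ} {r c C : ℝ} (hr : 0 < r) (hC : 0 < C) (hs : DifferentiableOn ℂ s (Rc r r))
    (hb : ∀ z ∈ Rc r r, ‖s z‖ ≤ C) (he : ∀ z ∈ Rc r r, s (-z) = s z)
    (hc : ∀ z ∈ Rc r r, (deriv (deriv s) z).re ≤ -c) {δ : ℝ} (hδ : 0 < δ) (hδr : δ ≤ r / 4)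
    (hδC : 64 * C / r ^ 2 * (2 * δ) ≤ 1 / 4) (u y : ℝ) (hu : |u| ≤ δ) (hy : |y| ≤ δ) :
    (s (u + y * I)).re ≤ (s 0).re - c * u ^ 2 / 2 + |y| / 4 := by
  have hopen := Rc_open r r
  have hs1 : DifferentiableOn ℂ (deriv s) (Rc r r) := hs.deriv hopen
  have h0 : (0 : ℂ) ∈ Rc r r := by simp [Rc, hr]
  -- bounds of the derivatives
  have hd1 : ∀ z : ℂ, |z.re| ≤ 3 * r / 4 ∧ |z.im| ≤ 3 * r / 4 → ‖deriv s z‖ ≤ C / (r / 8) := by
    intro z hz
    have hsub : closedBall z (r / 8) ⊆ Rc r r := Rc_ball (by linarith) (by linarith) hz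
    exact Complex.norm_deriv_le_of_forall_mem_sphere_norm_le (by linarith) (hs.diffContOnCl_ball hsub)
      (fun w hw => hb w (hsub (sphere_subset_closedBall hw)))
  have hd2 : ∀ z : ℂ, |z.re| ≤ r / 2 ∧ |z.im| ≤ r / 2 → ‖deriv (deriv s) z‖ ≤ 64 * C / r ^ 2 := by
    intro z hz
    have hsub : closedBall z (r / 8) ⊆ Rc r r := Rc_ball (by linarith) (by linarith) hz
    have hsub2 : closedBall z (r / 8) ⊆ Rc (3 * r / 4) (3 * r / 4) := Rc_ball (by linarith) (by linarith) hz
    have := Complex.norm_deriv_le_of_forall_mem_sphere_norm_le (by linarith : 0 < r / 8)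
      (hs1.diffContOnCl_ball hsub)
      (fun w hw => hd1 w ⟨(hsub2 (sphere_subset_closedBall hw)).1.le, (hsub2 (sphere_subset_closedBall hw)).2.le⟩)
    calc _ ≤ _ := this
      _ = 64 * C / r ^ 2 := by field_simp; norm_num
  have hz0 : deriv s 0 = 0 := by
    have h1 : (fun z => s (-z)) =ᶠ[𝓝 0] s := by
      filter_upwards [hopen.mem_nhds h0] with z hz
      exact he z hz
    have h2 := h1.deriv_eq
    rw [deriv_comp_neg, neg_zero] at h2
    have h3 : deriv s 0 + deriv s 0 = 0 := by linear_combination (-1 : ℂ) * h2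
    have h4 : 2 * deriv s 0 = 0 := by linear_combination h3
    simpa using h4
  have hd1' : ∀ z : ℂ, |z.re| ≤ r / 2 → |z.im| ≤ r / 2 → ‖deriv s z‖ ≤ 64 * C / r ^ 2 * ‖z‖ := by
    intro z h1 h2
    have := Convex.norm_image_sub_le_of_norm_deriv_le (f := deriv s) (C := 64 * C / r ^ 2)
      (s := {z : ℂ | |z.re| ≤ r / 2 ∧ |z.im| ≤ r / 2}) (x := 0) (y := z)
      (fun w hw => hs1.differentiableAt (hopen.mem_nhds ⟨by linarith [hw.1], by linarith [hw.2]⟩))
      (fun w hw => hd2 w hw) (convex_box _ _) (by simp; linarith) ⟨h1, h2⟩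
    rwa [hz0, sub_zero, sub_zero] at this
  -- along the real axis
  have hreal : ∀ t : ℝ, |t| < r → (t : ℂ) ∈ Rc r r := by
    intro t ht
    refine ⟨by simpa using ht, by simpa using hr⟩
  have hpos : ∀ v : ℝ, 0 ≤ v → v ≤ δ → (s v).re ≤ (s 0).re - c * v ^ 2 / 2 := by
    intro v hv0 hvδ
    have hin : ∀ t ∈ Set.Icc (0 : ℝ) v, |t| < r := by
      intro t ht
      rw [abs_of_nonneg ht.1]
      linarith [ht.2]
    -- first derivative
    have g1 : ∀ t ∈ Set.Icc (0 : ℝ) v, HasDerivAt (fun x : ℝ => (s x).re + c * x ^ 2 / 2) ((deriv s t).re + c * t) t := by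
      intro t ht
      have h1 : HasDerivAt s (deriv s t) (t : ℂ) :=
        (hs.differentiableAt (hopen.mem_nhds (hreal t (hin t ht)))).hasDerivAt
      have h2 := h1.real_of_complex
      have h3 : HasDerivAt (fun x : ℝ => c * x ^ 2 / 2) (c * t) t := by
        have := ((hasDerivAt_pow 2 t).const_mul c).div_const 2
        refine this.congr_deriv ?_
        simp
        ring
      exact h2.add h3
    have g2 : ∀ t ∈ Set.Icc (0 : ℝ) v, HasDerivAt (fun x : ℝ => (deriv s x).re + c * x) ((deriv (deriv s) t).re + c) t := by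
      intro t ht
      have h1 : HasDerivAt (deriv s) (deriv (deriv s) t) (t : ℂ) :=
        (hs1.differentiableAt (hopen.mem_nhds (hreal t (hin t ht)))).hasDerivAt
      have h2 := h1.real_of_complex
      have h3 : HasDerivAt (fun x : ℝ => c * x) c t := by
        have := (hasDerivAt_id t).const_mul c
        simpa using this
      exact h2.add h3
    have a2 : AntitoneOn (fun x : ℝ => (deriv s x).re + c * x) (Set.Icc 0 v) := by
      apply antitoneOn_of_deriv_nonpos (convex_Icc 0 v)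
      · exact fun t ht => (g2 t ht).continuousAt.continuousWithinAt
      · exact fun t ht => (g2 t (interior_subset ht)).differentiableAt.differentiableWithinAt
      · intro t ht
        rw [(g2 t (interior_subset ht)).deriv]
        have := hc t (hreal t (hin t (interior_subset ht)))
        linarith
    have n1 : ∀ t ∈ Set.Icc (0 : ℝ) v, (deriv s t).re + c * t ≤ 0 := by
      intro t ht
      have := a2 (Set.left_mem_Icc.2 hv0) ht ht.1
      simp only [Complex.ofReal_zero, hz0, Complex.zero_re, mul_zero, add_zero] at this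
      exact this
    have a1 : AntitoneOn (fun x : ℝ => (s x).re + c * x ^ 2 / 2) (Set.Icc 0 v) := by
      apply antitoneOn_of_deriv_nonpos (convex_Icc 0 v)
      · exact fun t ht => (g1 t ht).continuousAt.continuousWithinAt
      · exact fun t ht => (g1 t (interior_subset ht)).differentiableAt.differentiableWithinAt
      · intro t ht
        rw [(g1 t (interior_subset ht)).deriv]
        exact n1 t (interior_subset ht)
    have := a1 (Set.left_mem_Icc.2 hv0) (Set.right_mem_Icc.2 hv0) hv0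
    simp only [Complex.ofReal_zero] at this
    norm_num at this
    linarith
  have hre : (s u).re ≤ (s 0).re - c * u ^ 2 / 2 := by
    rcases le_or_gt 0 u with h | h
    · exact hpos u h (by rwa [abs_of_nonneg h] at hu)
    · have h1 := hpos (-u) (by linarith) (by rwa [abs_of_neg h] at hu)
      have h2 := he (u : ℂ) (hreal u (by linarith))
      push_cast at h1
      rw [h2] at h1
      rw [neg_sq] at h1
      exact h1
  -- the vertical step
  have hvert : ‖s (u + y * I) - s u‖ ≤ 1 / 4 * ‖((u : ℂ) + y * I) - u‖ := by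
    apply Convex.norm_image_sub_le_of_norm_deriv_le (f := s)
      (s := {z : ℂ | |z.re| ≤ δ ∧ |z.im| ≤ δ}) (x := (u : ℂ)) (y := (u : ℂ) + y * I)
    · exact fun w hw => hs.differentiableAt (hopen.mem_nhds ⟨by linarith [hw.1], by linarith [hw.2]⟩)
    · intro w hw
      refine (hd1' w (by linarith [hw.1]) (by linarith [hw.2])).trans ?_
      have h1 : ‖w‖ ≤ 2 * δ := by
        have := Complex.norm_le_abs_re_add_abs_im w
        linarith [hw.1, hw.2]
      calc 64 * C / r ^ 2 * ‖w‖ ≤ 64 * C / r ^ 2 * (2 * δ) := mul_le_mul_of_nonneg_left h1 (by positivity)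
        _ ≤ 1 / 4 := hδC
    · exact convex_box _ _
    · refine ⟨by simpa using hu, ?_⟩
      simp
      exact hδ.le
    · refine ⟨by simpa using hu, by simpa using hy⟩
  have e1 : ((u : ℂ) + y * I) - u = y * I := by ring
  rw [e1, norm_mul, Complex.norm_I, mul_one, Complex.norm_real, Real.norm_eq_abs] at hvert
  have h5 : (s (u + y * I)).re - (s u).re ≤ ‖s (u + y * I) - s u‖ := by
    rw [← Complex.sub_re]
    exact Complex.re_le_norm _
  linarith

/-- the potential near `0` -/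
lemma pot (φ₀ : ℂ) (r c C : ℝ) (h : SGP φ₀ r c C) (ρ' : ℝ) (hρ' : 0 < ρ') : ∃ δ κ : ℝ, 0 < δ ∧ δ ≤ ρ' ∧ δ < r ∧
    0 < κ ∧ ∀ φ ∈ ball φ₀ r, ∀ u y : ℝ, |u| ≤ δ → |y| ≤ δ → (|y| = δ ∨ δ / 2 ≤ |u|) →
    (sg (u + y * I) φ).re ≤ (sg 0 φ).re - κ + |y| / 2 := by
  have hr := h.hr.1
  have hc := h.hc
  have hC1 : 0 < max C 1 := lt_of_lt_of_le one_pos (le_max_right _ _)
  obtain ⟨δ, hδ⟩ : ∃ δ : ℝ, δ = min (min ρ' (r / 4)) (1 / (8 * (64 * max C 1 / r ^ 2))) := ⟨_, rfl⟩
  have hδ0 : 0 < δ := by rw [hδ]; positivity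
  have hδ1 : δ ≤ ρ' := by rw [hδ]; exact (min_le_left _ _).trans (min_le_left _ _)
  have hδ2 : δ ≤ r / 4 := by rw [hδ]; exact (min_le_left _ _).trans (min_le_right _ _)
  have hδ3 : 64 * max C 1 / r ^ 2 * (2 * δ) ≤ 1 / 4 := by
    have h1 : δ ≤ 1 / (8 * (64 * max C 1 / r ^ 2)) := by rw [hδ]; exact min_le_right _ _
    have h2 : 0 < 64 * max C 1 / r ^ 2 := by positivity
    rw [le_div_iff₀ (by positivity)] at h1
    linarith
  refine ⟨δ, min (δ / 4) (c * δ ^ 2 / 8), hδ0, hδ1, by linarith, by positivity, ?_⟩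
  intro φ hφ u y hu hy huy
  have h1 := even_pot (s := fun z => sg z φ) (c := c) hr hC1 (by
      have h2 : (fun z => sg z φ) = (fun p : ℂ × ℂ => sg p.1 p.2) ∘ (fun z => (z, φ)) := rfl
      rw [h2]
      apply h.san.comp
      · fun_prop
      · intro z hz
        exact ⟨hz, hφ⟩)
    (fun z hz => (h.sbd z hz φ hφ).trans (le_max_left _ _)) (fun z hz => h.ev z hz φ hφ)
    (fun z hz => h.conc z hz φ hφ) hδ0 hδ2 hδ3 u y hu hy
  have h3 : min (δ / 4) (c * δ ^ 2 / 8) ≤ c * u ^ 2 / 2 + |y| / 4 := by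
    rcases huy with h4 | h4
    · rw [h4]
      refine (min_le_left _ _).trans ?_
      have : 0 ≤ c * u ^ 2 / 2 := by positivity
      linarith
    · refine (min_le_right _ _).trans ?_
      have h5 : (δ / 2) ^ 2 ≤ u ^ 2 := by
        rw [← sq_abs u]
        exact pow_le_pow_left₀ (by linarith) h4 2
      have h6 : 0 ≤ |y| := abs_nonneg _
      nlinarith
  linarith

end Pool.Agent.N566.VS
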