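import Mathlib
import Pool.Agent.N561.A.Stm
import Pool.Agent.W588.HT.Box

/-!
# S_FAR, part A: exact trigonometric interpolation of the kernel at the nodes
(helper566, subtask VS/B2 of helper561)
-/

set_option autoImplicit false

namespace Pool.Agent.N566.VS

open Filter Finset Topology Metric
open Pool.Agent.W711.HT Pool.Agent.N561
open scoped Real
open Complex (I)

/-- `e^{i d w} R_d(w)` is a polynomial of degree `≤ 2 d` in `e^{i w}` -/
lemma Rp_poly (N d : ℕ) : ∃ Q : Polynomial ℂ, Q.natDegree ≤ 2 * d ∧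
    ∀ w : ℂ, Complex.exp (I * w) ^ d * Rp N d w = Q.eval (Complex.exp (I * w)) := by
  induction d with
  | zero => exact ⟨1, by simp, fun w => by simp [Rp]⟩
  | succ d ih =>
    obtain ⟨Q, hQ, h⟩ := ih
    refine ⟨Q * (Polynomial.X ^ 2 + Polynomial.C (2 * (Real.cos (phi N d) : ℂ)) * Polynomial.X + 1), ?_, fun w => ?_⟩
    · refine Polynomial.natDegree_mul_le.trans ?_
      have h1 : (Polynomial.X ^ 2 + Polynomial.C (2 * (Real.cos (phi N d) : ℂ)) * Polynomial.X + 1 : Polynomial ℂ).natDegree ≤ 2 := by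
        compute_degree
      omega
    · have e1 : Rp N (d + 1) w = Rp N d w * (2 * Complex.cos w + 2 * (Real.cos (phi N d) : ℂ)) := by
        unfold Rp
        rw [prod_range_succ]
      rw [e1, pow_succ, Polynomial.eval_mul, ← h w]
      have e2 : Complex.exp (I * w) * (2 * Complex.cos w + 2 * (Real.cos (phi N d) : ℂ)) =
          Complex.exp (I * w) ^ 2 + 2 * (Real.cos (phi N d) : ℂ) * Complex.exp (I * w) + 1 := by
        rw [Complex.cos]
        have e3 : Complex.exp (I * w) * Complex.exp (-w * I) = 1 := by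
          rw [← Complex.exp_add]
          have : I * w + -w * I = 0 := by ring
          rw [this, Complex.exp_zero]
        have e4 : Complex.exp (w * I) = Complex.exp (I * w) := by rw [mul_comm]
        rw [e4]
        linear_combination e3
      simp only [Polynomial.eval_add, Polynomial.eval_mul, Polynomial.eval_pow, Polynomial.eval_X,
        Polynomial.eval_C, Polynomial.eval_one]
      rw [← e2]
      ring

lemma k0_poly (N : ℕ) (hN : 1 ≤ N) (φ : ℂ) : ∃ P : Polynomial ℂ, P.natDegree < N ∧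
    ∀ w : ℂ, Complex.exp (I * w) ^ ((N - 1) / 2) * k0 N w φ = P.eval (Complex.exp (I * w)) := by
  choose Q hQ h using Rp_poly N
  have hM : (N + 1) / 2 = (N - 1) / 2 + 1 := by omega
  set M := (N - 1) / 2 with hMd
  refine ⟨∑ d ∈ range (M + 1), Polynomial.C (Rp N d φ / (Sd N d : ℂ) ^ 4) * (Polynomial.X ^ (M - d) * Q d), ?_, fun w => ?_⟩
  · have h1 : (∑ d ∈ range (M + 1), Polynomial.C (Rp N d φ / (Sd N d : ℂ) ^ 4) * (Polynomial.X ^ (M - d) * Q d)).natDegree ≤ 2 * M := by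
      apply Polynomial.natDegree_sum_le_of_forall_le
      intro d hd
      rw [mem_range] at hd
      refine (Polynomial.natDegree_C_mul_le _ _).trans (Polynomial.natDegree_mul_le.trans ?_)
      have := hQ d
      rw [Polynomial.natDegree_X_pow]
      omega
    omega
  · rw [Polynomial.eval_finsetSum]
    unfold k0
    rw [hM, mul_sum]
    apply sum_congr rfl
    intro d hd
    rw [mem_range] at hd
    simp only [Polynomial.eval_mul, Polynomial.eval_C, Polynomial.eval_pow, Polynomial.eval_X]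
    rw [← h d w]
    have e : Complex.exp (I * w) ^ M = Complex.exp (I * w) ^ (M - d) * Complex.exp (I * w) ^ d := by
      rw [← pow_add]
      congr 1
      omega
    rw [e]
    ring

lemma k0_diff (N : ℕ) (φ : ℂ) : Differentiable ℂ (fun v => k0 N v φ) := by
  unfold k0 Rp
  fun_prop

lemma Rp_even (N d : ℕ) (w : ℂ) : Rp N d (-w) = Rp N d w := by
  unfold Rp
  rw [Complex.cos_neg]

lemma k0_even (N : ℕ) (w φ : ℂ) : k0 N (-w) φ = k0 N w φ := by
  unfold k0
  simp_rw [Rp_even]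

/-- the `N`-th power at the nodes -/
lemma node_pow (N n : ℕ) (hN : 1 ≤ N) : Complex.exp (I * (lat N n : ℂ)) ^ N = -(-1 : ℂ) ^ N := by
  have hN0 : (N : ℂ) ≠ 0 := by exact_mod_cast (by omega : N ≠ 0)
  rw [← Complex.exp_nat_mul]
  unfold lat
  push_cast
  have e : (N : ℂ) * (I * (π - π * (2 * n + 1) / N)) = N * (π * I) - n * (2 * π * I) - π * I := by
    field_simp
    ring
  rw [e, Complex.exp_sub, Complex.exp_sub, Complex.exp_nat_mul, Complex.exp_nat_mul, Complex.exp_pi_mul_I,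
    Complex.exp_two_pi_mul_I]
  rw [one_pow, div_one, div_neg, div_one]

/-- discrete orthogonality -/
lemma orth (N : ℕ) (hN : 1 ≤ N) (k m : ℕ) (hk : k < N) (hm : m < N) :
    ∑ n ∈ range N, Complex.exp (I * (lat N n : ℂ)) ^ k * (Complex.exp (I * (lat N n : ℂ)) ^ m)⁻¹ =
      if k = m then (N : ℂ) else 0 := by
  have hN0 : (N : ℂ) ≠ 0 := by exact_mod_cast (by omega : N ≠ 0)
  split_ifs with h
  · subst h
    have : ∀ n ∈ range N, Complex.exp (I * (lat N n : ℂ)) ^ k * (Complex.exp (I * (lat N n : ℂ)) ^ k)⁻¹ = 1 := by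
      intro n _
      exact mul_inv_cancel₀ (pow_ne_zero _ (Complex.exp_ne_zero _))
    rw [sum_congr rfl this]
    simp
  · set r : ℂ := Complex.exp (-(2 * π * I * ((k : ℂ) - m) / N)) with hr
    set c : ℂ := Complex.exp (I * (π - π / N) * ((k : ℂ) - m)) with hc
    have e1 : ∀ n ∈ range N, Complex.exp (I * (lat N n : ℂ)) ^ k * (Complex.exp (I * (lat N n : ℂ)) ^ m)⁻¹ = c * r ^ n := by
      intro n _
      rw [← Complex.exp_nat_mul, ← Complex.exp_nat_mul, ← Complex.exp_neg, ← Complex.exp_add, hc, hr,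
        ← Complex.exp_nat_mul, ← Complex.exp_add]
      congr 1
      unfold lat
      push_cast
      field_simp
      ring
    rw [sum_congr rfl e1, ← mul_sum]
    have hrN : r ^ N = 1 := by
      rw [hr, ← Complex.exp_nat_mul]
      have : (N : ℂ) * -(2 * π * I * ((k : ℂ) - m) / N) = ((m - k : ℤ) : ℂ) * (2 * π * I) := by
        push_cast
        field_simp
        ring
      rw [this, Complex.exp_int_mul_two_pi_mul_I]
    have hr1 : r ≠ 1 := by
      intro h1
      rw [hr, Complex.exp_eq_one_iff] at h1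
      obtain ⟨j, hj⟩ := h1
      have h2 : ((m : ℂ) - k) = j * N := by
        have htp : (2 * π * I : ℂ) ≠ 0 := Complex.two_pi_I_ne_zero
        have h3 : (2 * π * I : ℂ) * ((m : ℂ) - k) = (2 * π * I) * (j * N) := by
          field_simp at hj
          linear_combination (2 * π * I) * hj
        exact mul_left_cancel₀ htp h3
      have h4 : (m : ℤ) - k = j * N := by exact_mod_cast h2
      have h5 : |(m : ℤ) - k| < N := by
        rw [abs_lt]
        constructor <;> omega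
      rw [h4, abs_mul] at h5
      have h6 : j = 0 := by
        by_contra hj0
        have : 1 ≤ |j| := Int.one_le_abs hj0
        have h7 : |(N : ℤ)| = N := abs_of_nonneg (by positivity)
        rw [h7] at h5
        nlinarith
      rw [h6, zero_mul] at h4
      omega
    have h0 : ∑ n ∈ range N, r ^ n = 0 := by
      have h1 := mul_neg_geom_sum r N
      rw [hrN, sub_self] at h1
      rcases mul_eq_zero.1 h1 with h2 | h2
      · exact absurd (sub_eq_zero.1 h2).symm hr1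
      · exact h2
    rw [h0, mul_zero]

/-- the interpolation kernel -/
noncomputable def Ek (N : ℕ) (w : ℂ) (n : ℕ) : ℂ :=
  (1 / N) * (Complex.exp (I * w) ^ ((N - 1) / 2))⁻¹ * Complex.exp (I * (lat N n : ℂ)) ^ ((N - 1) / 2) *
    ∑ m ∈ range N, Complex.exp (I * w) ^ m * (Complex.exp (I * (lat N n : ℂ)) ^ m)⁻¹

lemma poly_interp (N : ℕ) (hN : 1 ≤ N) (P : Polynomial ℂ) (hP : P.natDegree < N) (z : ℂ) :
    P.eval z = ∑ n ∈ range N, P.eval (Complex.exp (I * (lat N n : ℂ))) *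
      ((1 / N) * ∑ m ∈ range N, z ^ m * (Complex.exp (I * (lat N n : ℂ)) ^ m)⁻¹) := by
  have hN0 : (N : ℂ) ≠ 0 := by exact_mod_cast (by omega : N ≠ 0)
  rw [Polynomial.eval_eq_sum_range' hP z]
  have e1 : ∀ n ∈ range N, P.eval (Complex.exp (I * (lat N n : ℂ))) *
      ((1 / N) * ∑ m ∈ range N, z ^ m * (Complex.exp (I * (lat N n : ℂ)) ^ m)⁻¹) =
      ∑ k ∈ range N, ∑ m ∈ range N, (1 / N) * P.coeff k * z ^ m *
        (Complex.exp (I * (lat N n : ℂ)) ^ k * (Complex.exp (I * (lat N n : ℂ)) ^ m)⁻¹) := by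
    intro n _
    rw [Polynomial.eval_eq_sum_range' hP, sum_mul]
    apply sum_congr rfl
    intro k _
    rw [mul_sum, mul_sum]
    apply sum_congr rfl
    intro m _
    ring
  rw [sum_congr rfl e1, sum_comm]
  apply sum_congr rfl
  intro k hk
  rw [sum_comm]
  have e2 : ∀ m ∈ range N, ∑ n ∈ range N, (1 / N) * P.coeff k * z ^ m *
        (Complex.exp (I * (lat N n : ℂ)) ^ k * (Complex.exp (I * (lat N n : ℂ)) ^ m)⁻¹) =
      if k = m then P.coeff k * z ^ m else 0 := by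
    intro m hm
    rw [← mul_sum, orth N hN k m (mem_range.1 hk) (mem_range.1 hm)]
    split_ifs
    · field_simp
    · rw [mul_zero]
  rw [sum_congr rfl e2, sum_ite_eq, if_pos hk]

/-- **interpolation** -/
lemma k0_interp (N : ℕ) (hN : 1 ≤ N) (φ w : ℂ) :
    k0 N w φ = ∑ n ∈ range N, k0 N (lat N n) φ * Ek N w n := by
  obtain ⟨P, hP, h⟩ := k0_poly N hN φ
  have h1 := h w
  rw [poly_interp N hN P hP] at h1
  have hne : Complex.exp (I * w) ^ ((N - 1) / 2) ≠ 0 := pow_ne_zero _ (Complex.exp_ne_zero _)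
  have h2 : k0 N w φ = (Complex.exp (I * w) ^ ((N - 1) / 2))⁻¹ * (Complex.exp (I * w) ^ ((N - 1) / 2) * k0 N w φ) := by
    rw [← mul_assoc, inv_mul_cancel₀ hne, one_mul]
  rw [h2, h1, mul_sum]
  apply sum_congr rfl
  intro n _
  rw [← h]
  unfold Ek
  ring

lemma exp_I_norm (w : ℂ) : ‖Complex.exp (I * w)‖ = Real.exp (-w.im) := by
  rw [Complex.norm_exp]
  congr 1
  simp

lemma Ek_norm (N : ℕ) (hN : 1 ≤ N) (w : ℂ) (hw : |w.im| ≤ 1 / N) (n : ℕ) : ‖Ek N w n‖ ≤ Real.exp 1 := by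
  have hNp : (0 : ℝ) < N := by exact_mod_cast (by omega : 0 < N)
  unfold Ek
  have hn : ‖Complex.exp (I * (lat N n : ℂ))‖ = 1 := by
    rw [exp_I_norm]
    simp
  have e1 : (1 / (N : ℂ)) * (Complex.exp (I * w) ^ ((N - 1) / 2))⁻¹ * Complex.exp (I * (lat N n : ℂ)) ^ ((N - 1) / 2) *
      ∑ m ∈ range N, Complex.exp (I * w) ^ m * (Complex.exp (I * (lat N n : ℂ)) ^ m)⁻¹ =
      (1 / N) * Complex.exp (I * (lat N n : ℂ)) ^ ((N - 1) / 2) *
      ∑ m ∈ range N, (Complex.exp (I * w) ^ ((N - 1) / 2))⁻¹ * Complex.exp (I * w) ^ m * (Complex.exp (I * (lat N n : ℂ)) ^ m)⁻¹ := by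
    rw [mul_sum, mul_sum]
    apply sum_congr rfl
    intro m _
    ring
  rw [e1, norm_mul, norm_mul, norm_pow, hn, one_pow, mul_one]
  have h1 : ∀ m ∈ range N, ‖(Complex.exp (I * w) ^ ((N - 1) / 2))⁻¹ * Complex.exp (I * w) ^ m *
      (Complex.exp (I * (lat N n : ℂ)) ^ m)⁻¹‖ ≤ Real.exp 1 := by
    intro m hm
    rw [mem_range] at hm
    rw [norm_mul, norm_mul, norm_inv, norm_inv, norm_pow, norm_pow, norm_pow, hn, one_pow, inv_one, mul_one,
      exp_I_norm, ← Real.exp_nat_mul, ← Real.exp_nat_mul, ← Real.exp_neg, ← Real.exp_add]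
    apply Real.exp_le_exp.2
    have h2 : -((((N - 1) / 2 : ℕ) : ℝ) * -w.im) + (m : ℝ) * -w.im = ((((N - 1) / 2 : ℕ) : ℝ) - m) * w.im := by ring
    rw [h2]
    have h3 : |(((N - 1) / 2 : ℕ) : ℝ) - m| ≤ N := by
      rw [abs_le]
      have a1 : (((N - 1) / 2 : ℕ) : ℝ) ≤ N := by exact_mod_cast (by omega : (N - 1) / 2 ≤ N)
      have a2 : (m : ℝ) ≤ N := by exact_mod_cast hm.le
      have a3 : (0 : ℝ) ≤ (((N - 1) / 2 : ℕ) : ℝ) := Nat.cast_nonneg _
      have a4 : (0 : ℝ) ≤ m := Nat.cast_nonneg _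
      constructor <;> linarith
    calc ((((N - 1) / 2 : ℕ) : ℝ) - m) * w.im ≤ |((((N - 1) / 2 : ℕ) : ℝ) - m) * w.im| := le_abs_self _
      _ = |(((N - 1) / 2 : ℕ) : ℝ) - m| * |w.im| := abs_mul _ _
      _ ≤ N * (1 / N) := mul_le_mul h3 hw (abs_nonneg _) hNp.le
      _ = 1 := by field_simp
  have h4 := (norm_sum_le _ _).trans (sum_le_sum h1)
  rw [sum_const, card_range, nsmul_eq_mul] at h4
  have h5 : ‖(1 / (N : ℂ))‖ = 1 / N := by
    rw [norm_div, norm_one]
    simp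
  rw [h5]
  calc 1 / (N : ℝ) * ‖∑ m ∈ range N, (Complex.exp (I * w) ^ ((N - 1) / 2))⁻¹ * Complex.exp (I * w) ^ m *
        (Complex.exp (I * (lat N n : ℂ)) ^ m)⁻¹‖ ≤ 1 / N * (N * Real.exp 1) :=
        mul_le_mul_of_nonneg_left h4 (by positivity)
    _ = Real.exp 1 := by field_simp

/-- the closed form of the interpolation kernel -/
lemma Ek_eq (N : ℕ) (hN : 1 ≤ N) (w : ℂ) (n : ℕ) (h : Complex.exp (I * (w - lat N n)) ≠ 1) :
    Ek N w n = ((1 / N) * (Complex.exp (I * w) ^ ((N - 1) / 2))⁻¹ * (Complex.exp (I * w) ^ N + (-1 : ℂ) ^ N)) *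
      (Complex.exp (-(I * ((N - (N - 1) / 2 : ℕ) : ℂ) * (lat N n : ℂ))) / (Complex.exp (I * (w - lat N n)) - 1)) := by
  set z := Complex.exp (I * w) with hz
  set u := Complex.exp (I * (lat N n : ℂ)) with hu
  have hu0 : u ≠ 0 := Complex.exp_ne_zero _
  have hz0 : z ≠ 0 := Complex.exp_ne_zero _
  have hq : Complex.exp (I * (w - lat N n)) = z * u⁻¹ := by
    rw [hz, hu, ← Complex.exp_neg, ← Complex.exp_add]
    congr 1
    ring
  rw [hq] at h ⊢
  have hgeo : ∑ m ∈ range N, z ^ m * (u ^ m)⁻¹ = ((z * u⁻¹) ^ N - 1) / (z * u⁻¹ - 1) := by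
    rw [← geom_sum_eq h]
    apply sum_congr rfl
    intro m _
    rw [mul_pow, inv_pow]
  have huN : u ^ N = -(-1 : ℂ) ^ N := node_pow N n hN
  have hexp : Complex.exp (-(I * ((N - (N - 1) / 2 : ℕ) : ℂ) * (lat N n : ℂ))) = (u ^ (N - (N - 1) / 2))⁻¹ := by
    rw [Complex.exp_neg, hu, ← Complex.exp_nat_mul]
    congr 2
    ring
  have hsplit : u ^ N = u ^ (N - (N - 1) / 2) * u ^ ((N - 1) / 2) := by
    rw [← pow_add]
    congr 1
    omega
  unfold Ek
  rw [← hz, ← hu, hgeo, hexp]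
  have hs : (-1 : ℂ) ^ N * (-1 : ℂ) ^ N = 1 := by
    rw [← mul_pow]
    simp
  have hp1 : u ^ (N - (N - 1) / 2) ≠ 0 := pow_ne_zero _ hu0
  have h1 : z * u⁻¹ - 1 ≠ 0 := sub_ne_zero.2 h
  have e1 : u ^ ((N - 1) / 2) * ((z * u⁻¹) ^ N - 1) = (z ^ N + (-1 : ℂ) ^ N) * (u ^ (N - (N - 1) / 2))⁻¹ := by
    rw [eq_mul_inv_iff_mul_eq₀ hp1]
    have e2 : u ^ ((N - 1) / 2) * ((z * u⁻¹) ^ N - 1) * u ^ (N - (N - 1) / 2) = u ^ N * ((z * u⁻¹) ^ N - 1) := by
      rw [hsplit]
      ring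
    rw [e2, mul_pow, inv_pow, mul_sub, mul_one]
    have e3 : u ^ N * (z ^ N * (u ^ N)⁻¹) = z ^ N := by
      field_simp
    rw [e3, huN]
    ring
  calc (1 / (N : ℂ)) * (z ^ ((N - 1) / 2))⁻¹ * u ^ ((N - 1) / 2) * (((z * u⁻¹) ^ N - 1) / (z * u⁻¹ - 1))
      = (1 / (N : ℂ)) * (z ^ ((N - 1) / 2))⁻¹ * (u ^ ((N - 1) / 2) * ((z * u⁻¹) ^ N - 1)) / (z * u⁻¹ - 1) := by ring
    _ = _ := by rw [e1]; ring

end Pool.Agent.N566.VS
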