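import Mathlib
import Pool.Agent.N566.VS.FarA

/-!
# S_FAR, part C: the sum over the near nodes as a contour integral
(helper566, subtask VS/B2 of helper561)
-/

set_option autoImplicit false

namespace Pool.Agent.N566.VS

open Filter Finset Topology Metric
open Pool.Agent.W711.HT Pool.Agent.N561
open Pool.Agent.W588.HT (kk ee EE)
open Pool.Agent.W709.VC (rect)
open scoped Real
open Complex (I)

/-- the nodes as a function of a complex index -/
noncomputable def vv (N : ℕ) (ζ : ℂ) : ℂ := π - π * (2 * ζ + 1) / N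

lemma vv_nat (N n : ℕ) : vv N (n : ℂ) = ((lat N n : ℝ) : ℂ) := by
  unfold vv lat
  push_cast
  ring

lemma vv_im (N : ℕ) (x y : ℝ) : (vv N (x + y * I)).im = -(2 * π * y / N) := by
  have e : vv N (x + y * I) = ((π - π * (2 * x + 1) / N : ℝ) : ℂ) + ((-(2 * π * y / N) : ℝ) : ℂ) * I := by
    unfold vv
    push_cast
    ring
  rw [e]
  simp

lemma vv_re (N : ℕ) (x y : ℝ) : (vv N (x + y * I)).re = π - π * (2 * x + 1) / N := by
  have e : vv N (x + y * I) = ((π - π * (2 * x + 1) / N : ℝ) : ℂ) + ((-(2 * π * y / N) : ℝ) : ℂ) * I := by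
    unfold vv
    push_cast
    ring
  rw [e]
  simp

lemma kk_hor {x y H : ℝ} (hy : |y| = H) (h : Real.exp (-(2 * π * H)) ≤ 1 / 2) :
    ‖kk (x + y * I)‖ ≤ 2 ∧ ‖kk (x + y * I)‖ ≤ 2 * Real.exp (2 * π * y) := by
  have h1 : ‖ee (x + y * I)‖ = Real.exp (-(2 * π * y)) := Pool.Agent.W588.HT.ee_norm x y
  have hk : ‖kk (x + y * I)‖ = 1 / ‖EE (x + y * I)‖ := by
    unfold kk
    rw [norm_div, norm_one]
  have hE : EE (x + y * I) = ee (x + y * I) - 1 := rfl
  rcases le_or_gt 0 y with h0 | h0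
  · rw [abs_of_nonneg h0] at hy
    have h1' : ‖ee (x + y * I)‖ ≤ 1 / 2 := by
      rw [h1, hy]
      exact h
    have h2 : (1 : ℝ) / 2 ≤ ‖EE (x + y * I)‖ := by
      have := norm_sub_norm_le (1 : ℂ) (ee (x + y * I))
      rw [norm_one, norm_sub_rev] at this
      rw [hE]
      linarith
    have h3 : ‖kk (x + y * I)‖ ≤ 2 := by
      rw [hk, div_le_iff₀ (by linarith)]
      linarith
    refine ⟨h3, h3.trans ?_⟩
    have h4 : (1 : ℝ) ≤ Real.exp (2 * π * y) := Real.one_le_exp (by positivity)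
    linarith
  · rw [abs_of_neg h0] at hy
    have h5 : Real.exp (2 * π * y) ≤ 1 / 2 := by
      have : 2 * π * y = -(2 * π * H) := by rw [← hy]; ring
      rw [this]
      exact h
    have h6 : Real.exp (-(2 * π * y)) * Real.exp (2 * π * y) = 1 := by
      rw [← Real.exp_add]
      simp
    have h7 : 2 ≤ Real.exp (-(2 * π * y)) := by
      have := Real.exp_pos (-(2 * π * y))
      nlinarith
    have h2 : Real.exp (-(2 * π * y)) / 2 ≤ ‖EE (x + y * I)‖ := by
      have := norm_sub_norm_le (ee (x + y * I)) 1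
      rw [norm_one, h1] at this
      rw [hE]
      linarith
    have h3 : ‖kk (x + y * I)‖ ≤ 2 * Real.exp (2 * π * y) := by
      rw [hk, div_le_iff₀ (by linarith)]
      have := Real.exp_pos (2 * π * y)
      nlinarith
    exact ⟨by linarith, h3⟩

lemma kk_ver (n : ℤ) (y : ℝ) : ‖kk (((n - 1 / 2 : ℝ) : ℂ) + y * I)‖ ≤ Real.exp (2 * π * y) := by
  unfold kk
  rw [Pool.Agent.W588.HT.EE_half, norm_div, norm_one, norm_neg, Complex.norm_real, Real.norm_eq_abs]
  have h1 := Real.exp_pos (-(2 * π * y))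
  have h2 := Real.exp_pos (2 * π * y)
  have h6 : Real.exp (-(2 * π * y)) * Real.exp (2 * π * y) = 1 := by
    rw [← Real.exp_add]
    simp
  rw [abs_of_pos (by positivity), div_le_iff₀ (by positivity)]
  nlinarith

lemma ex_bd (N : ℕ) (hN : 1 ≤ N) (x y h : ℝ) (hh : 0 ≤ h) (hy : 2 * π * |y| ≤ h * N)
    (hk1 : ‖kk (x + y * I)‖ ≤ 2) (hk2 : ‖kk (x + y * I)‖ ≤ 2 * Real.exp (2 * π * y)) :
    ‖Complex.exp (-(I * ((N - (N - 1) / 2 : ℕ) : ℂ) * vv N (x + y * I)))‖ * ‖kk (x + y * I)‖ ≤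
      2 * Real.exp h * Real.exp (-(π * |y|)) := by
  have hNp : (0 : ℝ) < N := by exact_mod_cast (by omega : 0 < N)
  have hpi := Real.pi_pos
  obtain ⟨m, hm⟩ : ∃ m : ℕ, m = N - (N - 1) / 2 := ⟨_, rfl⟩
  rw [← hm]
  have hm1 : (N : ℝ) ≤ 2 * m := by exact_mod_cast (by omega : N ≤ 2 * m)
  have hm2 : (2 : ℝ) * m ≤ N + 2 := by exact_mod_cast (by omega : 2 * m ≤ N + 2)
  have e1 : ‖Complex.exp (-(I * (m : ℂ) * vv N (x + y * I)))‖ = Real.exp (-(2 * π * y * m / N)) := by
    rw [Complex.norm_exp]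
    congr 1
    have : -(I * (m : ℂ) * vv N (x + y * I)) = -(I * ((m : ℝ) : ℂ) * vv N (x + y * I)) := by push_cast; ring
    rw [this]
    simp only [Complex.neg_re, Complex.mul_re, Complex.I_re, Complex.I_im, Complex.ofReal_re, Complex.ofReal_im,
      Complex.mul_im, vv_im]
    field_simp
    ring
  rw [e1]
  rcases le_or_gt 0 y with h0 | h0
  · rw [abs_of_nonneg h0]
    have h1 : Real.exp (-(2 * π * y * m / N)) ≤ Real.exp (-(π * y)) := by
      apply Real.exp_le_exp.2
      have h2 : π * y ≤ 2 * π * y * m / N := by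
        rw [le_div_iff₀ hNp]
        have : 0 ≤ π * y := by positivity
        nlinarith
      linarith
    have h3 : (1 : ℝ) ≤ Real.exp h := Real.one_le_exp hh
    have h4 := Real.exp_pos (-(π * y))
    calc Real.exp (-(2 * π * y * m / N)) * ‖kk (x + y * I)‖ ≤ Real.exp (-(π * y)) * 2 :=
          mul_le_mul h1 hk1 (norm_nonneg _) h4.le
      _ ≤ 2 * Real.exp h * Real.exp (-(π * y)) := by nlinarith
  · rw [abs_of_neg h0] at hy ⊢
    calc Real.exp (-(2 * π * y * m / N)) * ‖kk (x + y * I)‖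
        ≤ Real.exp (-(2 * π * y * m / N)) * (2 * Real.exp (2 * π * y)) :=
          mul_le_mul_of_nonneg_left hk2 (Real.exp_pos _).le
      _ = 2 * Real.exp (-(2 * π * y * m / N) + 2 * π * y) := by rw [Real.exp_add]; ring
      _ ≤ 2 * Real.exp (h + -(π * -y)) := by
          apply mul_le_mul_of_nonneg_left _ (by norm_num)
          apply Real.exp_le_exp.2
          have h5 : -(2 * π * y * m / N) ≤ -(π * y) + h := by
            have h6 : -(2 * π * y * m / N) = (π * -y) * (2 * m) / N := by ring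
            rw [h6, div_le_iff₀ hNp]
            have h7 : 0 ≤ π * -y := mul_nonneg hpi.le (by linarith)
            calc π * -y * (2 * m) ≤ π * -y * (N + 2) := mul_le_mul_of_nonneg_left hm2 h7
              _ = π * -y * N + 2 * π * -y := by ring
              _ ≤ π * -y * N + h * N := by linarith
              _ = (-(π * y) + h) * N := by ring
          linarith
      _ = 2 * Real.exp h * Real.exp (-(π * -y)) := by rw [Real.exp_add]; ring

/-- norm of a boundary integral -/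
lemma rect_norm {f : ℂ → ℂ} {a b H K : ℝ} (hab : a ≤ b) (hH : 0 ≤ H)
    (h1 : ∀ x y : ℝ, a ≤ x → x ≤ b → |y| = H → ‖f (x + y * I)‖ ≤ K)
    (h2 : ∀ y : ℝ, |y| ≤ H → ‖f (a + y * I)‖ ≤ K ∧ ‖f (b + y * I)‖ ≤ K) :
    ‖rect f a b (-H) H‖ ≤ K * (2 * (b - a) + 4 * H) := by
  unfold rect
  have e1 : ‖∫ x in a..b, f (x + (-H : ℝ) * I)‖ ≤ K * |b - a| := by
    apply intervalIntegral.norm_integral_le_of_norm_le_const
    intro x hx
    rw [Set.uIoc_of_le hab] at hx
    exact h1 x (-H) hx.1.le hx.2 (by rw [abs_neg, abs_of_nonneg hH])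
  have e2 : ‖∫ x in a..b, f (x + H * I)‖ ≤ K * |b - a| := by
    apply intervalIntegral.norm_integral_le_of_norm_le_const
    intro x hx
    rw [Set.uIoc_of_le hab] at hx
    exact h1 x H hx.1.le hx.2 (abs_of_nonneg hH)
  have e3 : ‖∫ y in (-H)..H, f (b + y * I)‖ ≤ K * |H - -H| := by
    apply intervalIntegral.norm_integral_le_of_norm_le_const
    intro y hy
    rw [Set.uIoc_of_le (by linarith)] at hy
    exact (h2 y (abs_le.2 ⟨hy.1.le, hy.2⟩)).2
  have e4 : ‖∫ y in (-H)..H, f (a + y * I)‖ ≤ K * |H - -H| := by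
    apply intervalIntegral.norm_integral_le_of_norm_le_const
    intro y hy
    rw [Set.uIoc_of_le (by linarith)] at hy
    exact (h2 y (abs_le.2 ⟨hy.1.le, hy.2⟩)).1
  rw [abs_of_nonneg (by linarith : 0 ≤ b - a)] at e1 e2
  rw [abs_of_nonneg (by linarith : 0 ≤ H - -H)] at e3 e4
  calc _ ≤ ‖∫ x in a..b, f (x + (-H : ℝ) * I)‖ + ‖∫ x in a..b, f (x + H * I)‖ +
        ‖I * ∫ y in (-H)..H, f (b + y * I)‖ + ‖I * ∫ y in (-H)..H, f (a + y * I)‖ := by
        refine (norm_sub_le _ _).trans (add_le_add_left ((norm_add_le _ _).trans (add_le_add_left (norm_sub_le _ _) _)) _)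
    _ ≤ K * (b - a) + K * (b - a) + K * (H - -H) + K * (H - -H) := by
        rw [norm_mul, norm_mul, Complex.norm_I, one_mul, one_mul]
        linarith
    _ = _ := by ring

/-- **the sum over the near nodes** -/
lemma near (N A B : ℕ) (hN : 1 ≤ N) (hAB : A ≤ B) (h : ℝ) (hh : 0 < h)
    (he : Real.exp (-(h * N)) ≤ 1 / 2) (w φ : ℂ) (T μ : ℝ) (hμ : 0 < μ) (hT0 : 0 ≤ T)
    (hsep : ∀ x y : ℝ, (A : ℝ) - 1 / 2 ≤ x → x ≤ B - 1 / 2 → 2 * π * |y| ≤ h * N →
      μ ≤ ‖Complex.exp (I * (w - vv N (x + y * I))) - 1‖)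
    (hT : ∀ x y : ℝ, (A : ℝ) - 1 / 2 ≤ x → x ≤ B - 1 / 2 → 2 * π * |y| ≤ h * N →
      (2 * π * |y| = h * N ∨ x = A - 1 / 2 ∨ x = B - 1 / 2) →
      ‖k0 N (vv N (x + y * I)) φ‖ ≤ T * Real.exp (π * |y|)) :
    ‖∑ n ∈ Ico A B, k0 N (lat N n) φ * (Complex.exp (-(I * ((N - (N - 1) / 2 : ℕ) : ℂ) * (lat N n : ℂ))) /
      (Complex.exp (I * (w - lat N n)) - 1))‖ ≤ 2 * Real.exp h * T / μ * (2 * ((B : ℝ) - A) + 4 * (h * N / (2 * π))) := by
  have hNp : (0 : ℝ) < N := by exact_mod_cast (by omega : 0 < N)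
  have hpi := Real.pi_pos
  obtain ⟨F, hF⟩ : ∃ F : ℂ → ℂ, F = fun ζ => k0 N (vv N ζ) φ *
    (Complex.exp (-(I * ((N - (N - 1) / 2 : ℕ) : ℂ) * vv N ζ)) / (Complex.exp (I * (w - vv N ζ)) - 1)) := ⟨_, rfl⟩
  have hvd : Differentiable ℂ (vv N) := by unfold vv; fun_prop
  have hden : Differentiable ℂ (fun ζ => Complex.exp (I * (w - vv N ζ)) - 1) := by fun_prop
  obtain ⟨V, hV⟩ : ∃ V : Set ℂ, V = {ζ | Complex.exp (I * (w - vv N ζ)) - 1 ≠ 0} := ⟨_, rfl⟩
  have hVo : IsOpen V := by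
    rw [hV]
    exact isOpen_ne_fun hden.continuous continuous_const
  have hFd : DifferentiableOn ℂ F V := by
    rw [hF]
    apply DifferentiableOn.mul
    · exact ((k0_diff N φ).comp hvd).differentiableOn
    · apply DifferentiableOn.div
      · fun_prop
      · exact hden.differentiableOn
      · intro ζ hζ
        rw [hV] at hζ
        exact hζ
  have hH : 0 < h * N / (2 * π) := by positivity
  have hiff : ∀ y : ℝ, |y| ≤ h * N / (2 * π) → 2 * π * |y| ≤ h * N := by
    intro y hy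
    rw [le_div_iff₀ (by positivity)] at hy
    linarith
  have hsum := Pool.Agent.W588.HT.sum_rect hVo hFd hAB hH (fun x y h1 h2 h3 => by
    rw [hV]
    intro h4
    have := hsep x y h1 h2 (hiff y h3)
    rw [h4, norm_zero] at this
    linarith)
  have e1 : ∑ n ∈ Ico A B, k0 N (lat N n) φ * (Complex.exp (-(I * ((N - (N - 1) / 2 : ℕ) : ℂ) * (lat N n : ℂ))) /
      (Complex.exp (I * (w - lat N n)) - 1)) = ∑ n ∈ Ico A B, F n := by
    apply sum_congr rfl
    intro n _
    rw [hF]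
    simp only [vv_nat]
  rw [e1, hsum]
  have hK0 : 0 ≤ 2 * Real.exp h * T / μ := by positivity
  -- the bound on the boundary
  have hbd : ∀ x y : ℝ, (A : ℝ) - 1 / 2 ≤ x → x ≤ B - 1 / 2 → 2 * π * |y| ≤ h * N →
      (2 * π * |y| = h * N ∨ x = A - 1 / 2 ∨ x = B - 1 / 2) →
      ‖F (x + y * I) * kk (x + y * I)‖ ≤ 2 * Real.exp h * T / μ := by
    intro x y h1 h2 h3 h4
    have hk : ‖kk (x + y * I)‖ ≤ 2 ∧ ‖kk (x + y * I)‖ ≤ 2 * Real.exp (2 * π * y) := by
      have hexp := Real.exp_pos (2 * π * y)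
      rcases h4 with h4 | h4 | h4
      · apply kk_hor (H := h * N / (2 * π))
        · rw [eq_div_iff (by positivity)]
          linarith
        · have : -(2 * π * (h * N / (2 * π))) = -(h * N) := by field_simp
          rw [this]
          exact he
      · have e2 : x = (((A : ℤ) : ℝ) - 1 / 2 : ℝ) := by rw [h4]; push_cast; ring
        rw [e2]
        have q1 := Pool.Agent.W588.HT.kk_half (A : ℤ) y
        have q2 := kk_ver (A : ℤ) y
        exact ⟨by linarith, by linarith⟩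
      · have e2 : x = (((B : ℤ) : ℝ) - 1 / 2 : ℝ) := by rw [h4]; push_cast; ring
        rw [e2]
        have q1 := Pool.Agent.W588.HT.kk_half (B : ℤ) y
        have q2 := kk_ver (B : ℤ) y
        exact ⟨by linarith, by linarith⟩
    have hex := ex_bd N hN x y h hh.le h3 hk.1 hk.2
    have hs := hsep x y h1 h2 h3
    have ht := hT x y h1 h2 h3 h4
    have e3 : ‖F (x + y * I) * kk (x + y * I)‖ = ‖k0 N (vv N (x + y * I)) φ‖ *
        (‖Complex.exp (-(I * ((N - (N - 1) / 2 : ℕ) : ℂ) * vv N (x + y * I)))‖ * ‖kk (x + y * I)‖) /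
        ‖Complex.exp (I * (w - vv N (x + y * I))) - 1‖ := by
      rw [hF]
      simp only [norm_mul, norm_div]
      ring
    rw [e3]
    calc _ ≤ T * Real.exp (π * |y|) * (2 * Real.exp h * Real.exp (-(π * |y|))) / μ := by
          apply div_le_div₀ (by positivity) _ hμ hs
          exact mul_le_mul ht hex (by positivity) (by positivity)
      _ = 2 * Real.exp h * T / μ := by
          have : Real.exp (π * |y|) * Real.exp (-(π * |y|)) = 1 := by
            rw [← Real.exp_add]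
            simp
          have e5 : T * Real.exp (π * |y|) * (2 * Real.exp h * Real.exp (-(π * |y|))) =
              2 * Real.exp h * T * (Real.exp (π * |y|) * Real.exp (-(π * |y|))) := by ring
          rw [e5, this, mul_one]
  have hABr : (A : ℝ) ≤ B := by exact_mod_cast hAB
  have hfin := rect_norm (f := fun w => F w * kk w) (a := (A : ℝ) - 1 / 2) (b := (B : ℝ) - 1 / 2)
    (H := h * N / (2 * π)) (K := 2 * Real.exp h * T / μ) (by linarith) hH.le
    (fun x y h1 h2 h3 => hbd x y h1 h2 (hiff y h3.le) (Or.inl (by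
      rw [eq_div_iff (by positivity)] at h3
      linarith)))
    (fun y hy => ⟨hbd ((A : ℝ) - 1 / 2) y le_rfl (by linarith) (hiff y hy) (Or.inr (Or.inl rfl)),
      hbd ((B : ℝ) - 1 / 2) y (by linarith) le_rfl (hiff y hy) (Or.inr (Or.inr rfl))⟩)
  refine hfin.trans (le_of_eq ?_)
  ring

end Pool.Agent.N566.VS
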