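import Mathlib
import Pool.Agent.N566.VS.FarB
import Pool.Agent.N566.VS.FarC

/-!
# S_FAR: the bound of the kernel away from `ψ = 0`
(helper566, subtask VS/B2 of helper561)
-/

set_option autoImplicit false

namespace Pool.Agent.N566.VS

open Filter Finset Topology Metric
open Pool.Agent.W711.HT Pool.Agent.N561
open scoped Real
open Complex (I)

lemma cos_sep {ρ a : ℝ} (hρ : 0 < ρ) (h1 : ρ / 2 ≤ |a|) (h2 : |a| ≤ 2 * π - ρ / 2) :
    Real.cos a ≤ Real.cos (ρ / 2) := by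
  rw [← Real.cos_abs a]
  rcases le_or_gt |a| π with h | h
  · exact Real.cos_le_cos_of_nonneg_of_le_pi (by linarith) h h1
  · rw [← Real.cos_two_pi_sub]
    exact Real.cos_le_cos_of_nonneg_of_le_pi (by linarith) (by linarith) (by linarith)

/-- separation of the nodes -/
lemma sep {ρ a b : ℝ} (hρ : 0 < ρ) (h1 : ρ / 2 ≤ |a|) (h2 : |a| ≤ 2 * π - ρ / 2) (hb : |b| ≤ 2) :
    √(2 * Real.exp (-2) * (1 - Real.cos (ρ / 2))) ≤ ‖Complex.exp (I * (a + b * I)) - 1‖ := by
  apply Real.sqrt_le_iff.2 ⟨norm_nonneg _, ?_⟩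
  rw [Complex.sq_norm, Complex.normSq_apply]
  have e1 : (Complex.exp (I * (a + b * I))).re = Real.exp (-b) * Real.cos a := by
    rw [Complex.exp_re]
    simp
  have e2 : (Complex.exp (I * (a + b * I))).im = Real.exp (-b) * Real.sin a := by
    rw [Complex.exp_im]
    simp
  rw [Complex.sub_re, Complex.sub_im, e1, e2, Complex.one_re, Complex.one_im]
  have h3 := cos_sep hρ h1 h2
  have h4 : Real.exp (-2) ≤ Real.exp (-b) := Real.exp_le_exp.2 (by linarith [le_abs_self b])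
  have h5 := Real.sin_sq_add_cos_sq a
  have h6 : 0 ≤ 1 - Real.cos (ρ / 2) := by linarith [Real.cos_le_one (ρ / 2)]
  have h7 : Real.exp (-2) * (1 - Real.cos (ρ / 2)) ≤ Real.exp (-b) * (1 - Real.cos a) :=
    mul_le_mul h4 (by linarith) h6 (Real.exp_pos _).le
  have h8 : (Real.exp (-b) * Real.cos a - 1) * (Real.exp (-b) * Real.cos a - 1) +
      (Real.exp (-b) * Real.sin a - 0) * (Real.exp (-b) * Real.sin a - 0) =
      (Real.exp (-b) - 1) ^ 2 + 2 * (Real.exp (-b) * (1 - Real.cos a)) +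
        Real.exp (-b) ^ 2 * (Real.sin a ^ 2 + Real.cos a ^ 2 - 1) := by ring
  rw [h8, h5]
  nlinarith [sq_nonneg (Real.exp (-b) - 1)]

/-- the prefactor of the interpolation kernel -/
lemma pref (N : ℕ) (hN : 1 ≤ N) (w : ℂ) (hw : |w.im| ≤ 1 / N) :
    ‖(1 / (N : ℂ)) * (Complex.exp (I * w) ^ ((N - 1) / 2))⁻¹ * (Complex.exp (I * w) ^ N + (-1 : ℂ) ^ N)‖ ≤ 12 / N := by
  have hNp : (0 : ℝ) < N := by exact_mod_cast (by omega : 0 < N)
  have hNw : N * |w.im| ≤ 1 := by
    rw [le_div_iff₀ hNp] at hw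
    linarith
  have h1 : ‖(Complex.exp (I * w) ^ ((N - 1) / 2))⁻¹‖ ≤ Real.exp 1 := by
    rw [norm_inv, norm_pow, exp_I_norm, ← Real.exp_nat_mul, ← Real.exp_neg]
    apply Real.exp_le_exp.2
    have h2 : (((N - 1) / 2 : ℕ) : ℝ) ≤ N := by exact_mod_cast (by omega : (N - 1) / 2 ≤ N)
    have h3 : (((N - 1) / 2 : ℕ) : ℝ) * |w.im| ≤ N * |w.im| := mul_le_mul_of_nonneg_right h2 (abs_nonneg _)
    have h4 : (((N - 1) / 2 : ℕ) : ℝ) * w.im ≤ (((N - 1) / 2 : ℕ) : ℝ) * |w.im| :=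
      mul_le_mul_of_nonneg_left (le_abs_self _) (Nat.cast_nonneg _)
    have e : -((((N - 1) / 2 : ℕ) : ℝ) * -w.im) = (((N - 1) / 2 : ℕ) : ℝ) * w.im := by ring
    rw [e]
    linarith
  have h2 : ‖Complex.exp (I * w) ^ N + (-1 : ℂ) ^ N‖ ≤ Real.exp 1 + 1 := by
    refine (norm_add_le _ _).trans ?_
    have h5 : ‖(-1 : ℂ) ^ N‖ = 1 := by simp
    rw [h5, norm_pow, exp_I_norm, ← Real.exp_nat_mul]
    have h6 : (N : ℝ) * -w.im ≤ 1 := by
      have h4 : (N : ℝ) * -w.im ≤ N * |w.im| := mul_le_mul_of_nonneg_left (neg_le_abs _) hNp.le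
      linarith
    linarith [Real.exp_le_exp.2 h6]
  have h3 : ‖(1 / (N : ℂ))‖ = 1 / N := by
    rw [norm_div, norm_one]
    simp
  rw [norm_mul, norm_mul, h3]
  have he := Real.exp_one_lt_d9
  have he0 := Real.exp_pos 1
  calc 1 / (N : ℝ) * ‖(Complex.exp (I * w) ^ ((N - 1) / 2))⁻¹‖ * ‖Complex.exp (I * w) ^ N + (-1 : ℂ) ^ N‖
      ≤ 1 / (N : ℝ) * Real.exp 1 * (Real.exp 1 + 1) := by gcongr
    _ = (Real.exp 1 * (Real.exp 1 + 1)) / N := by ring
    _ ≤ 12 / N := by
        apply div_le_div_of_nonneg_right _ hNp.le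
        nlinarith

lemma lat_neg (N n : ℕ) (hn : n < N) : (lat N n : ℝ) = -lat N (N - 1 - n) := by
  have hNp : (0 : ℝ) < N := by exact_mod_cast (by omega : 0 < N)
  unfold lat
  have e : ((N - 1 - n : ℕ) : ℝ) = N - 1 - n := by
    rw [Nat.cast_sub (by omega), Nat.cast_sub (by omega)]
    push_cast
    ring
  rw [e]
  field_simp
  ring

/-- the analysis for fixed `N` -/
lemma far_N (N : ℕ) (hN : 1 ≤ N) {ρ δ T : ℝ} (hρ : 0 < ρ) (hρπ : ρ ≤ π) (hδ : 0 < δ) (hδρ : δ ≤ ρ / 2) (hδ1 : δ ≤ 1)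
    (hNδ : 8 * π ≤ δ * N) (hT0 : 0 ≤ T) (φ : ℂ)
    (hnode : ∀ n : ℕ, δ / 2 ≤ lat N n → ‖k0 N (lat N n) φ‖ ≤ T)
    (hbd : ∀ u y : ℝ, |u| ≤ δ → |y| ≤ δ → (|y| = δ ∨ δ / 2 ≤ |u|) →
      ‖k0 N (u + y * I) φ‖ ≤ T * Real.exp (N * |y| / 2)) (x y : ℝ) (hx : ρ ≤ |x|) (hxπ : |x| ≤ π) (hy : |y| ≤ 1 / N) :
    ‖k0 N (x + y * I) φ‖ ≤ (Real.exp 1 * N + 144 * Real.exp δ / √(2 * Real.exp (-2) * (1 - Real.cos (ρ / 2)))) * T := by
  have hNp : (0 : ℝ) < N := by exact_mod_cast (by omega : 0 < N)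
  have hpi := Real.pi_pos
  have hpi3 := Real.pi_gt_three
  obtain ⟨μ, hμ⟩ : ∃ μ : ℝ, μ = √(2 * Real.exp (-2) * (1 - Real.cos (ρ / 2))) := ⟨_, rfl⟩
  have hμ0 : 0 < μ := by
    rw [hμ]
    apply Real.sqrt_pos.2
    have h1 : Real.cos (ρ / 2) < 1 := by
      have := Real.cos_lt_cos_of_nonneg_of_le_pi (le_refl 0) (by linarith : ρ / 2 ≤ π) (by linarith)
      rwa [Real.cos_zero] at this
    have := Real.exp_pos (-2)
    have h2 : 0 < 1 - Real.cos (ρ / 2) := by linarith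
    positivity
  rw [← hμ]
  -- the splitting index
  obtain ⟨A, hA⟩ : ∃ A : ℕ, A = ⌈N * (π - δ) / (2 * π)⌉₊ := ⟨_, rfl⟩
  have hA1 : N * (π - δ) / (2 * π) ≤ A := by rw [hA]; exact Nat.le_ceil _
  have hA2 : (A : ℝ) < N * (π - δ) / (2 * π) + 1 := by
    rw [hA]
    apply Nat.ceil_lt_add_one
    have : 0 ≤ π - δ := by linarith
    positivity
  rw [div_le_iff₀ (by positivity)] at hA1
  have hA2' : (A - 1 : ℝ) * (2 * π) < N * (π - δ) := by
    rw [← lt_div_iff₀ (by positivity)]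
    linarith
  obtain ⟨X, hX⟩ : ∃ X : ℝ, X = π - 2 * π * A / N := ⟨_, rfl⟩
  have hX1 : X ≤ δ := by
    rw [hX, sub_le_iff_le_add, ← sub_le_iff_le_add', le_div_iff₀ hNp]
    linarith
  have hX2 : 3 * δ / 4 ≤ X := by
    have h1 : 2 * π * A / N ≤ π - 3 * δ / 4 := by
      rw [div_le_iff₀ hNp]
      nlinarith
    rw [hX]
    linarith
  have hπN : π / N ≤ δ / 8 := by
    rw [div_le_iff₀ hNp]
    linarith
  have hlatA : lat N A = X - π / N := by
    rw [hX]
    unfold lat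
    field_simp
    ring
  have hANr : (2 * A + 1 : ℝ) ≤ N := by
    have h1 : π / N ≤ X := by linarith
    rw [hX, div_le_iff₀ hNp] at h1
    have h2 : (π - 2 * π * A / N) * N = π * N - 2 * π * A := by field_simp
    rw [h2] at h1
    have h3 : π * (2 * A + 1) ≤ π * N := by linarith
    exact le_of_mul_le_mul_left h3 hpi
  have hAN : 2 * A + 1 ≤ N := by exact_mod_cast hANr
  have hAB : A ≤ N - A := by omega
  have hBr : ((N - A : ℕ) : ℝ) = N - A := by rw [Nat.cast_sub (by omega)]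
  -- the far nodes
  have hlat : ∀ n m : ℕ, n ≤ m → lat N m ≤ lat N n := by
    intro n m h
    unfold lat
    have : (n : ℝ) ≤ m := by exact_mod_cast h
    gcongr
  have hfar1 : ∀ n : ℕ, n < A → ‖k0 N (lat N n) φ‖ ≤ T := by
    intro n hn
    apply hnode
    have := hlat n A hn.le
    rw [hlatA] at this
    linarith
  have hfar2 : ∀ n : ℕ, N - A ≤ n → n < N → ‖k0 N (lat N n) φ‖ ≤ T := by
    intro n hn hnN
    rw [lat_neg N n hnN]
    push_cast
    rw [k0_even]
    exact hfar1 _ (by omega)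
  have hwim : |((x : ℂ) + y * I).im| ≤ 1 / N := by simpa using hy
  have hE := Ek_norm N hN ((x : ℂ) + y * I) hwim
  have he1 := Real.exp_pos 1
  -- the interpolation
  rw [k0_interp N hN φ ((x : ℂ) + y * I)]
  have hsplit : ∑ n ∈ range N, k0 N (lat N n) φ * Ek N (x + y * I) n =
      ∑ n ∈ range A, k0 N (lat N n) φ * Ek N (x + y * I) n +
      ∑ n ∈ Ico A (N - A), k0 N (lat N n) φ * Ek N (x + y * I) n +
      ∑ n ∈ Ico (N - A) N, k0 N (lat N n) φ * Ek N (x + y * I) n := by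
    rw [sum_range_add_sum_Ico _ hAB, sum_range_add_sum_Ico _ (by omega)]
  rw [hsplit]
  have b1 : ‖∑ n ∈ range A, k0 N (lat N n) φ * Ek N (x + y * I) n‖ ≤ A * (T * Real.exp 1) := by
    refine (norm_sum_le _ _).trans ?_
    calc ∑ n ∈ range A, ‖k0 N (lat N n) φ * Ek N (x + y * I) n‖ ≤ ∑ n ∈ range A, T * Real.exp 1 := by
          apply sum_le_sum
          intro n hn
          rw [norm_mul]
          exact mul_le_mul (hfar1 n (mem_range.1 hn)) (hE n) (norm_nonneg _) hT0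
      _ = A * (T * Real.exp 1) := by rw [sum_const, card_range, nsmul_eq_mul]
  have b3 : ‖∑ n ∈ Ico (N - A) N, k0 N (lat N n) φ * Ek N (x + y * I) n‖ ≤ A * (T * Real.exp 1) := by
    refine (norm_sum_le _ _).trans ?_
    calc ∑ n ∈ Ico (N - A) N, ‖k0 N (lat N n) φ * Ek N (x + y * I) n‖ ≤ ∑ n ∈ Ico (N - A) N, T * Real.exp 1 := by
          apply sum_le_sum
          intro n hn
          rw [mem_Ico] at hn
          rw [norm_mul]
          exact mul_le_mul (hfar2 n hn.1 hn.2) (hE n) (norm_nonneg _) hT0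
      _ = A * (T * Real.exp 1) := by
          rw [sum_const, Nat.card_Ico, nsmul_eq_mul]
          congr 2
          omega
  -- the near nodes
  have hvv : ∀ s t : ℝ, vv N (s + t * I) = ((π - π * (2 * s + 1) / N : ℝ) : ℂ) + ((-(2 * π * t / N) : ℝ) : ℂ) * I := by
    intro s t
    unfold vv
    push_cast
    ring
  have hu : ∀ s : ℝ, (A : ℝ) - 1 / 2 ≤ s → s ≤ ((N - A : ℕ) : ℝ) - 1 / 2 → |π - π * (2 * s + 1) / N| ≤ X := by
    intro s h1 h2
    rw [hBr] at h2
    rw [hX, abs_le]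
    constructor
    · rw [neg_sub, sub_le_iff_le_add, ← sub_le_iff_le_add']
      have h3 : π * (2 * s + 1) / N ≤ π * (2 * (N - A)) / N := by
        gcongr
        linarith
      have h4 : π * (2 * (N - A : ℝ)) / N = 2 * π - 2 * π * A / N := by
        field_simp
      linarith
    · have h3 : 2 * π * A / N ≤ π * (2 * s + 1) / N := by
        have : 2 * π * A = π * (2 * A) := by ring
        rw [this]
        gcongr
        linarith
      linarith
  have him : ∀ t : ℝ, 2 * π * |t| ≤ δ * N → |-(2 * π * t / N)| ≤ δ := by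
    intro t ht
    rw [abs_neg, abs_div, abs_mul, abs_of_pos (by positivity : (0 : ℝ) < 2 * π), abs_of_pos hNp, div_le_iff₀ hNp]
    exact ht
  have hN1 : 1 / (N : ℝ) ≤ 1 := by
    rw [div_le_one hNp]
    exact_mod_cast hN
  have hsep : ∀ s t : ℝ, (A : ℝ) - 1 / 2 ≤ s → s ≤ ((N - A : ℕ) : ℝ) - 1 / 2 → 2 * π * |t| ≤ δ * N →
      μ ≤ ‖Complex.exp (I * (((x : ℂ) + y * I) - vv N (s + t * I))) - 1‖ := by
    intro s t h1 h2 h3
    have h4 := hu s h1 h2
    have h5 := him t h3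
    have e1 : ((x : ℂ) + y * I) - vv N (s + t * I) = ((x - (π - π * (2 * s + 1) / N) : ℝ) : ℂ) +
        ((y - -(2 * π * t / N) : ℝ) : ℂ) * I := by
      rw [hvv]
      push_cast
      ring
    rw [e1, hμ]
    apply sep hρ
    · have := abs_sub_abs_le_abs_sub x (π - π * (2 * s + 1) / N)
      linarith
    · have := abs_sub x (π - π * (2 * s + 1) / N)
      linarith
    · have := abs_sub y (-(2 * π * t / N))
      linarith
  have hnear := near N A (N - A) hN hAB δ hδ (by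
      have h1 : Real.exp (-(δ * N)) ≤ Real.exp (-1) := Real.exp_le_exp.2 (by linarith)
      have h2 : Real.exp (-1) * Real.exp 1 = 1 := by rw [← Real.exp_add]; simp
      have h3 : (2 : ℝ) ≤ Real.exp 1 := by linarith [Real.add_one_le_exp 1]
      have h4 := Real.exp_pos (-1)
      nlinarith) ((x : ℂ) + y * I) φ T μ hμ0 hT0 hsep (by
      intro s t h1 h2 h3 h4
      rw [hvv]
      have h5 := hbd (π - π * (2 * s + 1) / N) (-(2 * π * t / N)) ((hu s h1 h2).trans hX1) (him t h3) (by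
        rcases h4 with h4 | h4 | h4
        · left
          rw [abs_neg, abs_div, abs_mul, abs_of_pos (by positivity : (0 : ℝ) < 2 * π), abs_of_pos hNp,
            div_eq_iff hNp.ne']
          exact h4
        · right
          have e1 : π - π * (2 * s + 1) / N = X := by
            rw [h4, hX]
            ring
          rw [e1, abs_of_nonneg (by linarith)]
          linarith
        · right
          have e1 : π - π * (2 * s + 1) / N = -X := by
            rw [h4, hX, hBr]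
            field_simp
            ring
          rw [e1, abs_neg, abs_of_nonneg (by linarith)]
          linarith)
      refine h5.trans (le_of_eq ?_)
      congr 2
      rw [abs_neg, abs_div, abs_mul, abs_of_pos (by positivity : (0 : ℝ) < 2 * π), abs_of_pos hNp]
      field_simp)
  have b2 : ‖∑ n ∈ Ico A (N - A), k0 N (lat N n) φ * Ek N (x + y * I) n‖ ≤ 144 * Real.exp δ / μ * T := by
    have e1 : ∀ n ∈ Ico A (N - A), k0 N (lat N n) φ * Ek N (x + y * I) n =
        ((1 / N) * (Complex.exp (I * (x + y * I)) ^ ((N - 1) / 2))⁻¹ * (Complex.exp (I * (x + y * I)) ^ N + (-1 : ℂ) ^ N)) *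
        (k0 N (lat N n) φ * (Complex.exp (-(I * ((N - (N - 1) / 2 : ℕ) : ℂ) * (lat N n : ℂ))) /
      (Complex.exp (I * ((x + y * I) - lat N n)) - 1))) := by
      intro n hn
      rw [mem_Ico] at hn
      rw [Ek_eq N hN]
      · ring
      · intro h1
        have h2 := hsep n 0 (by
          have : (A : ℝ) ≤ n := by exact_mod_cast hn.1
          linarith) (by
          have : (n : ℝ) + 1 ≤ ((N - A : ℕ) : ℝ) := by exact_mod_cast hn.2
          linarith) (by simp; positivity)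
        have e2 : vv N (((n : ℝ) : ℂ) + ((0 : ℝ) : ℂ) * I) = ((lat N n : ℝ) : ℂ) := by
          rw [← vv_nat]
          simp
        rw [e2, h1, sub_self, norm_zero] at h2
        linarith
    rw [sum_congr rfl e1, ← mul_sum, norm_mul]
    have hp := pref N hN ((x : ℂ) + y * I) hwim
    have h2 : 2 * (((N - A : ℕ) : ℝ) - A) + 4 * (δ * N / (2 * π)) ≤ 6 * N := by
      rw [hBr]
      have h3 : δ * N / (2 * π) ≤ N := by
        rw [div_le_iff₀ (by positivity)]
        nlinarith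
      have h4 : (0 : ℝ) ≤ A := Nat.cast_nonneg _
      linarith
    have hK0 : 0 ≤ 2 * Real.exp δ * T / μ := by positivity
    calc _ ≤ 12 / N * (2 * Real.exp δ * T / μ * (2 * (((N - A : ℕ) : ℝ) - A) + 4 * (δ * N / (2 * π)))) :=
          mul_le_mul hp hnear (norm_nonneg _) (by positivity)
      _ ≤ 12 / N * (2 * Real.exp δ * T / μ * (6 * N)) :=
          mul_le_mul_of_nonneg_left (mul_le_mul_of_nonneg_left h2 hK0) (by positivity)
      _ = 144 * Real.exp δ / μ * T := by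
          field_simp
          ring
  have hAA : (A : ℝ) * (T * Real.exp 1) + A * (T * Real.exp 1) ≤ Real.exp 1 * N * T := by
    have h0 : 0 ≤ T * Real.exp 1 := by positivity
    have : (2 * A : ℝ) * (T * Real.exp 1) ≤ N * (T * Real.exp 1) := mul_le_mul_of_nonneg_right (by linarith) h0
    linarith
  have n1 := norm_add_le (∑ n ∈ range A, k0 N (lat N n) φ * Ek N (x + y * I) n +
      ∑ n ∈ Ico A (N - A), k0 N (lat N n) φ * Ek N (x + y * I) n)
      (∑ n ∈ Ico (N - A) N, k0 N (lat N n) φ * Ek N (x + y * I) n)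
  have n2 := norm_add_le (∑ n ∈ range A, k0 N (lat N n) φ * Ek N (x + y * I) n)
      (∑ n ∈ Ico A (N - A), k0 N (lat N n) φ * Ek N (x + y * I) n)
  rw [add_mul]
  linarith

/-- the main case -/
theorem far' (hM : S_MONO) (hNe : S_NEAR) (hG : S_SGP) (φ₀ : ℂ) (h0 : φ₀ ∈ GG) (ρ : ℝ) (hρ : 0 < ρ) (hρπ : ρ ≤ π) :
    ∃ κ r : ℝ, 0 < κ ∧ 0 < r ∧ ball φ₀ r ⊆ GG ∧
    ∀ᶠ N : ℕ in atTop, ∀ x y : ℝ, ρ ≤ |x| → |x| ≤ π → |y| ≤ 1 / N → ∀ φ ∈ ball φ₀ r,
      ‖k0 N (x + y * Complex.I) φ‖ ≤ Real.exp (N * ((sg 0 φ).re - κ)) := by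
  obtain ⟨r1, c, C, hS⟩ := hG φ₀ h0
  obtain ⟨r2, hr2, hsub2, hnear⟩ := hNe φ₀ h0
  have hr1 := hS.hr.1
  obtain ⟨δ, κ', hδ, hδρ, hδr, hκ', hpot⟩ := pot φ₀ r1 c C hS (min (min (ρ / 2) 1) (r2 / 2)) (by positivity)
  have hδ1 : δ ≤ ρ / 2 := hδρ.trans ((min_le_left _ _).trans (min_le_left _ _))
  have hδ2 : δ ≤ 1 := hδρ.trans ((min_le_left _ _).trans (min_le_right _ _))
  have hδ3 : δ < r2 := lt_of_le_of_lt (hδρ.trans (min_le_right _ _)) (by linarith)
  obtain ⟨r, hr⟩ : ∃ r : ℝ, r = min r1 r2 / 2 := ⟨_, rfl⟩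
  have hr0 : 0 < r := by rw [hr]; positivity
  have hrr1 : r < r1 := by
    rw [hr]
    have := min_le_left r1 r2
    linarith
  have hrr2 : r < r2 := by
    rw [hr]
    have := min_le_right r1 r2
    linarith
  have hKG : closedBall φ₀ r ⊆ GG := (closedBall_subset_ball hrr1).trans hS.sub
  refine ⟨κ' / 4, r, by positivity, hr0, (ball_subset_closedBall).trans hKG, ?_⟩
  obtain ⟨K2, hK2⟩ : ∃ K2 : ℝ, K2 = 144 * Real.exp δ / √(2 * Real.exp (-2) * (1 - Real.cos (ρ / 2))) := ⟨_, rfl⟩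
  have hK20 : 0 ≤ K2 := by rw [hK2]; positivity
  have ev1 := hM _ hKG (isCompact_closedBall φ₀ r)
  have ev2 := hnear (κ' / 4) (by positivity)
  have ev3 : ∀ᶠ N : ℕ in atTop, 8 * π / δ ≤ N := tendsto_natCast_atTop_atTop.eventually_ge_atTop _
  have ev4 : ∀ᶠ N : ℕ in atTop, 8 / κ' ^ 2 * (Real.exp 1 + K2) ≤ N := tendsto_natCast_atTop_atTop.eventually_ge_atTop _
  filter_upwards [ev1, ev2, ev3, ev4, eventually_ge_atTop 1] with N h1 h2 h3 h4 hN x y hx hxπ hy φ hφ
  have hNp : (0 : ℝ) < N := by exact_mod_cast (by omega : 0 < N)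
  have hφ1 : φ ∈ ball φ₀ r1 := ball_subset_ball hrr1.le hφ
  have hφ2 : φ ∈ ball φ₀ r2 := ball_subset_ball hrr2.le hφ
  rw [div_le_iff₀ hδ] at h3
  have hub : ∀ ψ ∈ Rc r2 r2, ‖k0 N ψ φ‖ ≤ Real.exp (N * ((sg ψ φ).re + κ' / 4)) := by
    intro ψ hψ
    obtain ⟨p1, p2⟩ := h2 ψ hψ φ hφ2
    have p3 : 0 < ‖k0 N ψ φ‖ := norm_pos_iff.2 p1
    rw [← Real.exp_log p3]
    apply Real.exp_le_exp.2
    have := (abs_le.1 p2).2
    linarith
  obtain ⟨T, hT⟩ : ∃ T : ℝ, T = Real.exp (N * ((sg 0 φ).re - κ' + κ' / 4)) := ⟨_, rfl⟩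
  have hT0 : 0 ≤ T := by rw [hT]; exact (Real.exp_pos _).le
  have hbd : ∀ u y : ℝ, |u| ≤ δ → |y| ≤ δ → (|y| = δ ∨ δ / 2 ≤ |u|) →
      ‖k0 N (u + y * I) φ‖ ≤ T * Real.exp (N * |y| / 2) := by
    intro u y hu hy huy
    have q1 := hub ((u : ℂ) + y * I) ⟨by simpa using lt_of_le_of_lt hu hδ3, by simpa using lt_of_le_of_lt hy hδ3⟩
    have q2 := hpot φ hφ1 u y hu hy huy
    refine q1.trans ?_
    rw [hT, ← Real.exp_add]
    apply Real.exp_le_exp.2
    calc N * ((sg (u + y * I) φ).re + κ' / 4) ≤ N * (((sg 0 φ).re - κ' + |y| / 2) + κ' / 4) := by gcongr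
      _ = _ := by ring
  have hnode : ∀ n : ℕ, δ / 2 ≤ lat N n → ‖k0 N (lat N n) φ‖ ≤ T := by
    intro n hn
    -- the last node above `δ / 2`
    obtain ⟨m, hnm, hm1, hm2⟩ : ∃ m : ℕ, n ≤ m ∧ δ / 2 ≤ lat N m ∧ lat N m ≤ δ := by
      by_contra hcon
      push Not at hcon
      have hall : ∀ m : ℕ, n ≤ m → δ < lat N m := by
        intro m hm
        induction m, hm using Nat.le_induction with
        | base => exact hcon n le_rfl hn
        | succ m hm ih =>
          apply hcon (m + 1) (by omega)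
          have e : lat N (m + 1) = lat N m - 2 * π / N := by
            unfold lat
            push_cast
            field_simp
            ring
          rw [e]
          have : 2 * π / N ≤ δ / 4 := by
            rw [div_le_iff₀ hNp]
            linarith
          linarith
      have h5 := hall (max n N) (le_max_left _ _)
      unfold lat at h5
      have h6 : π ≤ π * (2 * ((max n N : ℕ) : ℝ) + 1) / N := by
        rw [le_div_iff₀ hNp]
        have h7 : (N : ℝ) ≤ ((max n N : ℕ) : ℝ) := by exact_mod_cast le_max_right n N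
        have := Real.pi_pos
        nlinarith
      linarith
    have hmN : 2 * m + 1 ≤ N := by
      have h5 : 0 ≤ lat N m := by linarith
      unfold lat at h5
      have h6 : π * (2 * m + 1) / N ≤ π := by linarith
      rw [div_le_iff₀ hNp] at h6
      have h7 : (2 * m + 1 : ℝ) ≤ N := le_of_mul_le_mul_left h6 Real.pi_pos
      exact_mod_cast h7
    refine (h1 φ (ball_subset_closedBall hφ) n m hnm hmN).trans ?_
    have h8 := hbd (lat N m) 0 (by rwa [abs_of_nonneg (by linarith)]) (by simp; exact hδ.le)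
      (Or.inr (by rwa [abs_of_nonneg (by linarith)]))
    simpa using h8
  have hfin := far_N N hN hρ hρπ hδ hδ1 hδ2 (by linarith) hT0 φ hnode hbd x y hx hxπ hy
  rw [← hK2] at hfin
  refine hfin.trans ?_
  have h5 : Real.exp 1 * N + K2 ≤ Real.exp (N * (κ' / 2)) := by
    have h6 := Real.quadratic_le_exp_of_nonneg (by positivity : 0 ≤ N * (κ' / 2))
    rw [div_mul_eq_mul_div, div_le_iff₀ (by positivity)] at h4
    have h7 : (1 : ℝ) ≤ N := by exact_mod_cast hN
    have h8 : 0 < N * (κ' / 2) := by positivity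
    have h9 : Real.exp 1 * N + K2 ≤ (Real.exp 1 + K2) * N := by nlinarith
    have h10 : (Real.exp 1 + K2) * N ≤ N * κ' ^ 2 / 8 * N := by
      apply mul_le_mul_of_nonneg_right _ hNp.le
      linarith
    have h11 : N * κ' ^ 2 / 8 * N = (N * (κ' / 2)) ^ 2 / 2 := by ring
    linarith
  calc (Real.exp 1 * N + K2) * T ≤ Real.exp (N * (κ' / 2)) * T := mul_le_mul_of_nonneg_right h5 hT0
    _ = Real.exp (N * ((sg 0 φ).re - κ' / 4)) := by
        rw [hT, ← Real.exp_add]
        congr 1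
        ring

/-- **job B2** -/
theorem far (hM : S_MONO) (hNe : S_NEAR) (hG : S_SGP) : S_FAR := by
  intro φ₀ h0 ρ hρ
  obtain ⟨κ, r, h1, h2, h3, h4⟩ := far' hM hNe hG φ₀ h0 (min ρ π) (lt_min hρ Real.pi_pos) (min_le_right _ _)
  refine ⟨κ, r, h1, h2, h3, ?_⟩
  filter_upwards [h4] with N hN x y hx hxπ hy φ hφ
  exact hN x y ((min_le_left _ _).trans hx) hxπ hy φ hφ

end Pool.Agent.N566.VS
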