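import Pool.Agent.N561.A.Stm
import Pool.Agent.N119.VS.Cal

/-!
# Clasps: the dilogarithm identity behind the critical value

`EE` is the difference of the two potentials on the curve `cos φ = -(1 + X) / 2`,
`X = exp (2 π i δ)`.  It is constant, and the constant is purely imaginary.
-/

set_option autoImplicit false

namespace Pool.Agent.N566.VS

open Filter Topology Metric MeasureTheory Set
open Pool.Agent.W711.HT Pool.Agent.N561 Pool.Agent.N119.VS
open scoped Real

/-- `exp (2 π i δ)` on the curve -/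
noncomputable def Xf (φ : ℂ) : ℂ := -(1 + 2 * Complex.cos φ)

/-- `δ` on the curve -/
noncomputable def df (φ : ℂ) : ℂ := Complex.log (Xf φ) / (2 * π * Complex.I)

/-- the difference of the potentials -/
noncomputable def EE (φ : ℂ) : ℂ :=
  RR (df φ) φ - LS (π * df φ) / π + π * Complex.I / 2 * (df φ + df φ ^ 2) -
    Complex.I * φ ^ 2 / (2 * π) + Complex.I * φ

/-- the region of the variable -/
def W : Set ℂ := {φ | 2 * π / 3 < φ.re ∧ φ.re < π ∧ 0 < φ.im}

theorem cos23 {x : ℝ} (h1 : 2 * π / 3 < x) (h2 : x < π) :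
    -1 < Real.cos x ∧ Real.cos x < -(1 / 2) ∧ 0 < Real.sin x := by
  have hp := Real.pi_pos
  have e : Real.cos x = -Real.cos (π - x) := by rw [Real.cos_pi_sub]; ring
  have h3 : Real.cos (π / 3) < Real.cos (π - x) :=
    Real.cos_lt_cos_of_nonneg_of_le_pi (by linarith) (by linarith) (by linarith)
  have h4 : Real.cos (π - x) < Real.cos 0 :=
    Real.cos_lt_cos_of_nonneg_of_le_pi le_rfl (by linarith) (by linarith)
  rw [Real.cos_pi_div_three] at h3
  rw [Real.cos_zero] at h4
  refine ⟨by linarith, by linarith, Real.sin_pos_of_pos_of_lt_pi (by linarith) h2⟩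

theorem Xf_re (φ : ℂ) : (Xf φ).re = -1 - 2 * (Real.cos φ.re * Real.cosh φ.im) := by
  simp [Xf, cos_re']
  ring

theorem Xf_im (φ : ℂ) : (Xf φ).im = 2 * (Real.sin φ.re * Real.sinh φ.im) := by
  simp [Xf, cos_im']

theorem Xf_re_pos {φ : ℂ} (h1 : 2 * π / 3 < φ.re) (h2 : φ.re < π) : 0 < (Xf φ).re := by
  obtain ⟨a, b, c⟩ := cos23 h1 h2
  rw [Xf_re]
  have := Real.one_le_cosh φ.im
  nlinarith

theorem Xf_im_nonneg {φ : ℂ} (h1 : 2 * π / 3 < φ.re) (h2 : φ.re < π) (h3 : 0 ≤ φ.im) :
    0 ≤ (Xf φ).im := by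
  obtain ⟨a, b, c⟩ := cos23 h1 h2
  rw [Xf_im]
  have := Real.sinh_nonneg_iff.2 h3
  positivity

theorem Xf_slit {φ : ℂ} (h1 : 2 * π / 3 < φ.re) (h2 : φ.re < π) : Xf φ ∈ Complex.slitPlane := by
  rw [Complex.mem_slitPlane_iff]
  exact Or.inl (Xf_re_pos h1 h2)

theorem Xf_ne {φ : ℂ} (h1 : 2 * π / 3 < φ.re) (h2 : φ.re < π) : Xf φ ≠ 0 :=
  Complex.slitPlane_ne_zero (Xf_slit h1 h2)

/-- `|X| < e ^ (Im φ)` -/
theorem Xf_norm {φ : ℂ} (h1 : 2 * π / 3 < φ.re) (h2 : φ.re < π) (h3 : 0 ≤ φ.im) :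
    Real.log ‖Xf φ‖ < φ.im := by
  obtain ⟨a, b, c⟩ := cos23 h1 h2
  have h0 : 0 < ‖Xf φ‖ := norm_pos_iff.2 (Xf_ne h1 h2)
  rw [Real.log_lt_iff_lt_exp h0]
  have e1 : ‖Xf φ‖ ^ 2 = (Xf φ).re ^ 2 + (Xf φ).im ^ 2 := by
    rw [← Complex.normSq_eq_norm_sq, Complex.normSq_apply]; ring
  apply lt_of_pow_lt_pow_left₀ 2 (Real.exp_pos _).le
  rw [e1, Xf_re, Xf_im]
  have e2 : Real.exp φ.im = Real.cosh φ.im + Real.sinh φ.im := (Real.cosh_add_sinh _).symm
  have e3 : Real.cosh φ.im ^ 2 - Real.sinh φ.im ^ 2 = 1 := by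
    have := Real.cosh_sq φ.im; linarith
  have e4 := Real.sin_sq_add_cos_sq φ.re
  have e5 : Real.exp (-φ.im) = Real.cosh φ.im - Real.sinh φ.im := (Real.cosh_sub_sinh _).symm
  have e6 : Real.exp (-φ.im) ≤ 1 := Real.exp_le_one_iff.2 (by linarith)
  have e7 : 0 < Real.exp (-φ.im) := Real.exp_pos _
  have e8 : 1 ≤ Real.cosh φ.im := Real.one_le_cosh _
  rw [e5] at e6 e7
  rw [e2]
  set k := Real.cos φ.re
  set s := Real.sin φ.re
  set C := Real.cosh φ.im
  set S := Real.sinh φ.im
  have h5 : s ^ 2 = 1 - k ^ 2 := by linarith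
  have h6 : S ^ 2 = C ^ 2 - 1 := by linarith
  have h7 : (C + S) ^ 2 - ((-1 - 2 * (k * C)) ^ 2 + (2 * (s * S)) ^ 2) =
      (1 - (C - S) ^ 2) + 4 * (-k) * (C + k) := by
    have : (2 * (s * S)) ^ 2 = 4 * (1 - k ^ 2) * (C ^ 2 - 1) := by
      rw [← h5, ← h6]; ring
    rw [this]
    linear_combination 2 * h6
  have h8 : 0 < 4 * (-k) * (C + k) := by
    apply mul_pos <;> linarith
  have h9 : 0 ≤ 1 - (C - S) ^ 2 := by nlinarith
  linarith


/-- a complex number with `exp z = 1`, `|Im z| < 2 π` -/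
theorem zero_of_exp {z : ℂ} (h : Complex.exp z = 1) (h1 : -(2 * π) < z.im) (h2 : z.im < 2 * π) :
    z = 0 := by
  have hp := Real.pi_pos
  rw [Complex.exp_eq_one_iff] at h
  obtain ⟨n, hn⟩ := h
  have h3 : z.im = n * (2 * π) := by
    rw [hn]
    simp
  have h4 : n = 0 := by
    rw [h3] at h1 h2
    have a1 : (-1 : ℝ) < n := by
      by_contra hc; push Not at hc; nlinarith
    have a2 : (n : ℝ) < 1 := by
      by_contra hc; push Not at hc; nlinarith
    have b1 : -1 < n := by exact_mod_cast a1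
    have b2 : n < 1 := by exact_mod_cast a2
    omega
  rw [hn, h4]
  simp

theorem pd_eq (φ : ℂ) : π * df φ = -(Complex.I / 2) * Complex.log (Xf φ) := by
  have hp : (π : ℂ) ≠ 0 := by exact_mod_cast Real.pi_ne_zero
  unfold df
  field_simp
  rw [Complex.I_sq]
  ring

theorem pd_re (φ : ℂ) : (π * df φ).re = (Xf φ).arg / 2 := by
  rw [pd_eq]
  simp [Complex.log_im]
  ring

theorem pd_im (φ : ℂ) : (π * df φ).im = -(Real.log ‖Xf φ‖ / 2) := by
  rw [pd_eq]
  simp [Complex.log_re]
  ring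

theorem arg_nonneg {φ : ℂ} (h1 : 2 * π / 3 < φ.re) (h2 : φ.re < π) (h3 : 0 ≤ φ.im) :
    0 ≤ (Xf φ).arg ∧ (Xf φ).arg < π / 2 := by
  refine ⟨Complex.arg_nonneg_iff.2 (Xf_im_nonneg h1 h2 h3), ?_⟩
  have := (Complex.abs_arg_lt_pi_div_two_iff.2 (Or.inl (Xf_re_pos h1 h2)))
  exact (abs_lt.1 this).2

theorem arg_pos {φ : ℂ} (h : φ ∈ W) : 0 < (Xf φ).arg := by
  obtain ⟨h1, h2, h3⟩ := h
  have h4 := (arg_nonneg h1 h2 h3.le).1
  rcases h4.eq_or_lt with h5 | h5
  · exfalso
    have h6 : (Xf φ).im = 0 := (Complex.arg_eq_zero_iff.1 h5.symm).2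
    rw [Xf_im] at h6
    have h7 := (cos23 h1 h2).2.2
    have h8 := Real.sinh_pos_iff.2 h3
    have h9 := mul_pos h7 h8
    linarith
  · exact h5

theorem half_re (v : ℂ) : (v / 2).re = v.re / 2 := by simp
theorem half_im (v : ℂ) : (v / 2).im = v.im / 2 := by simp

/-- the three arguments of the logarithms are in the domains -/
theorem mem1 {φ : ℂ} (h1 : 2 * π / 3 < φ.re) (h2 : φ.re < π) (h3 : 0 ≤ φ.im) :
    π * df φ + φ / 2 ∈ WC := by
  have hp := Real.pi_pos
  obtain ⟨a1, a2⟩ := arg_nonneg h1 h2 h3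
  have h4 := Xf_norm h1 h2 h3
  refine ⟨?_, Or.inr ?_⟩
  · rw [Complex.add_re, pd_re, half_re, abs_lt]
    constructor <;> linarith
  · rw [Complex.add_im, pd_im, half_im]
    apply ne_of_gt
    linarith

theorem mem2 {φ : ℂ} (h1 : 2 * π / 3 < φ.re) (h2 : φ.re < π) (h3 : 0 ≤ φ.im) :
    π * df φ - φ / 2 ∈ WC := by
  have hp := Real.pi_pos
  obtain ⟨a1, a2⟩ := arg_nonneg h1 h2 h3
  have h4 : |(π * df φ - φ / 2).re| < π / 2 := by
    rw [Complex.sub_re, pd_re, half_re, abs_lt]
    constructor <;> linarith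
  exact ⟨by linarith, Or.inl h4⟩

theorem mem3 {φ : ℂ} (h1 : 2 * π / 3 < φ.re) (h2 : φ.re < π) (h3 : 0 ≤ φ.im) :
    π * df φ ∈ WS := by
  have hp := Real.pi_pos
  obtain ⟨a1, a2⟩ := arg_nonneg h1 h2 h3
  refine ⟨by rw [pd_re]; linarith, by rw [pd_re]; linarith, ?_⟩
  rcases h3.eq_or_lt with h5 | h5
  · right
    rw [pd_im]
    apply ne_of_gt
    have b := cos23 h1 h2
    have e : Xf φ = ((-1 - 2 * Real.cos φ.re : ℝ) : ℂ) := by
      apply Complex.ext
      · rw [Xf_re, ← h5, Real.cosh_zero, Complex.ofReal_re]; ring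
      · rw [Xf_im, ← h5, Real.sinh_zero, Complex.ofReal_im]; ring
    rw [e, Complex.norm_real, Real.norm_eq_abs, Real.log_abs]
    have : Real.log (-1 - 2 * Real.cos φ.re) < 0 := Real.log_neg (by linarith) (by linarith)
    linarith
  · left
    rw [pd_re]
    have := arg_pos ⟨h1, h2, h5⟩
    linarith

/-- exponentials -/
theorem exp_pd {φ : ℂ} (h : Xf φ ≠ 0) : Complex.exp (Complex.I * (π * df φ)) ^ 2 = Xf φ := by
  rw [← Complex.exp_nat_mul, pd_eq]
  have : ((2 : ℕ) : ℂ) * (Complex.I * (-(Complex.I / 2) * Complex.log (Xf φ))) =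
      Complex.log (Xf φ) := by
    push_cast
    linear_combination (-1 : ℂ) * Complex.log (Xf φ) * Complex.I_sq
  rw [this, Complex.exp_log h]

theorem cos_exp (z : ℂ) : 2 * Complex.cos z = Complex.exp (Complex.I * z) +
    (Complex.exp (Complex.I * z))⁻¹ := by
  rw [Complex.cos, ← Complex.exp_neg]
  rw [show z * Complex.I = Complex.I * z by ring, show -z * Complex.I = -(Complex.I * z) by ring]
  ring

theorem sin_exp (z : ℂ) : 2 * Complex.sin z = -Complex.I * (Complex.exp (Complex.I * z) -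
    (Complex.exp (Complex.I * z))⁻¹) := by
  rw [Complex.sin, ← Complex.exp_neg]
  rw [show z * Complex.I = Complex.I * z by ring, show -z * Complex.I = -(Complex.I * z) by ring]
  ring

theorem arg_two_mul (z : ℂ) : (2 * z).arg = z.arg := by
  have := Complex.arg_real_mul z (r := 2) (by norm_num)
  simpa using this

theorem im_log2 (z : ℂ) : (Complex.log (2 * z)).im = z.arg := by
  rw [Complex.log_im, arg_two_mul]

/-- the first logarithm has the imaginary part in `(-π, 0)` -/
theorem im_L1 {φ : ℂ} (h : φ ∈ W) : -π < (Complex.log (2 * Complex.cos (π * df φ + φ / 2))).im ∧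
    (Complex.log (2 * Complex.cos (π * df φ + φ / 2))).im < 0 := by
  have hp := Real.pi_pos
  obtain ⟨h1, h2, h3⟩ := h
  obtain ⟨a1, a2⟩ := arg_nonneg h1 h2 h3.le
  have h4 := Xf_norm h1 h2 h3.le
  rw [im_log2]
  refine ⟨Complex.neg_pi_lt_arg _, ?_⟩
  rw [Complex.arg_neg_iff, cos_im']
  have e1 : (π * df φ + φ / 2).re = (Xf φ).arg / 2 + φ.re / 2 := by
    rw [Complex.add_re, pd_re, half_re]
  have e2 : (π * df φ + φ / 2).im = -(Real.log ‖Xf φ‖ / 2) + φ.im / 2 := by
    rw [Complex.add_im, pd_im, half_im]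
  have s1 : 0 < Real.sin (π * df φ + φ / 2).re := by
    rw [e1]
    exact Real.sin_pos_of_pos_of_lt_pi (by linarith) (by linarith)
  have s2 : 0 < Real.sinh (π * df φ + φ / 2).im := by
    rw [e2]
    exact Real.sinh_pos_iff.2 (by linarith)
  have := mul_pos s1 s2
  linarith

/-- the second logarithm has the imaginary part in `(-π/2, π/2)` -/
theorem im_L2 {φ : ℂ} (h : φ ∈ W) :
    -(π / 2) < (Complex.log (2 * Complex.cos (π * df φ - φ / 2))).im ∧
    (Complex.log (2 * Complex.cos (π * df φ - φ / 2))).im < π / 2 := by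
  have hp := Real.pi_pos
  obtain ⟨h1, h2, h3⟩ := h
  obtain ⟨a1, a2⟩ := arg_nonneg h1 h2 h3.le
  rw [im_log2, ← abs_lt, Complex.abs_arg_lt_pi_div_two_iff]
  left
  rw [cos_re', Complex.sub_re, pd_re, half_re]
  exact mul_pos (Real.cos_pos_of_mem_Ioo ⟨by linarith, by linarith⟩) (Real.cosh_pos _)

/-- the third logarithm has the imaginary part in `(-π/2, π/2)` -/
theorem im_L3 {φ : ℂ} (h : φ ∈ W) :
    -(π / 2) < (Complex.log (2 * Complex.sin (π * df φ))).im ∧
    (Complex.log (2 * Complex.sin (π * df φ))).im < π / 2 := by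
  have hp := Real.pi_pos
  have h5 := arg_pos h
  obtain ⟨h1, h2, h3⟩ := h
  obtain ⟨a1, a2⟩ := arg_nonneg h1 h2 h3.le
  rw [im_log2, ← abs_lt, Complex.abs_arg_lt_pi_div_two_iff]
  left
  rw [sin_re', pd_re]
  exact mul_pos (Real.sin_pos_of_pos_of_lt_pi (by linarith) (by linarith)) (Real.cosh_pos _)

/-- the algebraic relation -/
theorem rel (φ : ℂ) : Xf φ * Complex.exp (Complex.I * φ) =
    -(1 + Complex.exp (Complex.I * φ) + Complex.exp (Complex.I * φ) ^ 2) := by
  have h0 := Complex.exp_ne_zero (Complex.I * φ)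
  rw [Xf, cos_exp]
  field_simp
  ring

theorem crit1 {φ : ℂ} (h : φ ∈ W) : Complex.log (2 * Complex.cos (π * df φ + φ / 2)) +
    Complex.log (2 * Complex.cos (π * df φ - φ / 2)) - Complex.log (2 * Complex.sin (π * df φ)) +
    π * Complex.I / 2 + Complex.I * (π * df φ) = 0 := by
  have hp := Real.pi_pos
  obtain ⟨b1, b2⟩ := im_L1 h
  obtain ⟨b3, b4⟩ := im_L2 h
  obtain ⟨b5, b6⟩ := im_L3 h
  obtain ⟨h1, h2, h3⟩ := h
  obtain ⟨a1, a2⟩ := arg_nonneg h1 h2 h3.le
  have n1 : 2 * Complex.cos (π * df φ + φ / 2) ≠ 0 :=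
    Complex.slitPlane_ne_zero (two_mul_mem (cos_mem (mem1 h1 h2 h3.le)))
  have n2 : 2 * Complex.cos (π * df φ - φ / 2) ≠ 0 :=
    Complex.slitPlane_ne_zero (two_mul_mem (cos_mem (mem2 h1 h2 h3.le)))
  have n3 : 2 * Complex.sin (π * df φ) ≠ 0 :=
    Complex.slitPlane_ne_zero (two_mul_mem (sin_mem (mem3 h1 h2 h3.le)))
  have e1 : (π * Complex.I / 2 : ℂ).im = π / 2 := by simp
  have e2 : (Complex.I * (π * df φ)).im = (Xf φ).arg / 2 := by
    rw [Complex.I_mul_im, pd_re]
  apply zero_of_exp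
  · rw [Complex.exp_add, Complex.exp_add, Complex.exp_sub, Complex.exp_add, Complex.exp_log n1,
      Complex.exp_log n2, Complex.exp_log n3]
    have e3 : Complex.exp (π * Complex.I / 2) = Complex.I := by
      rw [show (π * Complex.I / 2 : ℂ) = π / 2 * Complex.I by ring, Complex.exp_pi_div_two_mul_I]
    rw [e3]
    have hX := Xf_ne h1 h2
    have r1 := exp_pd hX
    have r2 := rel φ
    rw [cos_exp, cos_exp, sin_exp] at *
    have e4 : Complex.exp (Complex.I * (π * df φ + φ / 2)) =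
        Complex.exp (Complex.I * (π * df φ)) * Complex.exp (Complex.I * (φ / 2)) := by
      rw [← Complex.exp_add]; ring_nf
    have e5 : Complex.exp (Complex.I * (π * df φ - φ / 2)) =
        Complex.exp (Complex.I * (π * df φ)) / Complex.exp (Complex.I * (φ / 2)) := by
      rw [← Complex.exp_sub]; ring_nf
    have e6 : Complex.exp (Complex.I * φ) = Complex.exp (Complex.I * (φ / 2)) ^ 2 := by
      rw [← Complex.exp_nat_mul]; push_cast; ring_nf
    rw [e4] at n1 ⊢
    rw [e5] at n2 ⊢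
    rw [e6, ← r1] at r2
    have np := Complex.exp_ne_zero (Complex.I * (π * df φ))
    have nq := Complex.exp_ne_zero (Complex.I * (φ / 2))
    set p := Complex.exp (Complex.I * (π * df φ))
    set q := Complex.exp (Complex.I * (φ / 2))
    have n4 : p - p⁻¹ ≠ 0 := fun h0 => n3 (by rw [h0, mul_zero])
    have n5 : p ^ 2 - 1 ≠ 0 := fun h0 => n4 (by field_simp; linear_combination h0)
    have hI : Complex.I ^ 2 = -1 := Complex.I_sq
    have hI0 := Complex.I_ne_zero
    rw [div_mul_eq_mul_div, div_mul_eq_mul_div, div_eq_one_iff_eq n3]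
    field_simp
    linear_combination p ^ 2 * r2
  · rw [Complex.add_im, Complex.add_im, Complex.sub_im, Complex.add_im, e1, e2]
    linarith
  · rw [Complex.add_im, Complex.add_im, Complex.sub_im, Complex.add_im, e1, e2]
    linarith

theorem crit2 {φ : ℂ} (h : φ ∈ W) : Complex.log (2 * Complex.cos (π * df φ + φ / 2)) -
    Complex.log (2 * Complex.cos (π * df φ - φ / 2)) - 2 * (Complex.I * φ) +
    2 * (π * Complex.I) = 0 := by
  have hp := Real.pi_pos
  obtain ⟨b1, b2⟩ := im_L1 h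
  obtain ⟨b3, b4⟩ := im_L2 h
  obtain ⟨h1, h2, h3⟩ := h
  have n1 : 2 * Complex.cos (π * df φ + φ / 2) ≠ 0 :=
    Complex.slitPlane_ne_zero (two_mul_mem (cos_mem (mem1 h1 h2 h3.le)))
  have n2 : 2 * Complex.cos (π * df φ - φ / 2) ≠ 0 :=
    Complex.slitPlane_ne_zero (two_mul_mem (cos_mem (mem2 h1 h2 h3.le)))
  have e1 : (2 * (π * Complex.I) : ℂ).im = 2 * π := by simp
  have e2 : (2 * (Complex.I * φ)).im = 2 * φ.re := by simp
  apply zero_of_exp
  · rw [Complex.exp_add, Complex.exp_sub, Complex.exp_sub, Complex.exp_log n1,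
      Complex.exp_log n2]
    have e3 : Complex.exp (2 * (π * Complex.I)) = 1 := by
      rw [show (2 * (π * Complex.I) : ℂ) = 2 * π * Complex.I by ring, Complex.exp_two_pi_mul_I]
    rw [e3]
    have hX := Xf_ne h1 h2
    have r1 := exp_pd hX
    have r2 := rel φ
    rw [cos_exp, cos_exp] at *
    have e4 : Complex.exp (Complex.I * (π * df φ + φ / 2)) =
        Complex.exp (Complex.I * (π * df φ)) * Complex.exp (Complex.I * (φ / 2)) := by
      rw [← Complex.exp_add]; ring_nf
    have e5 : Complex.exp (Complex.I * (π * df φ - φ / 2)) =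
        Complex.exp (Complex.I * (π * df φ)) / Complex.exp (Complex.I * (φ / 2)) := by
      rw [← Complex.exp_sub]; ring_nf
    have e6 : Complex.exp (Complex.I * φ) = Complex.exp (Complex.I * (φ / 2)) ^ 2 := by
      rw [← Complex.exp_nat_mul]; push_cast; ring_nf
    have e7 : Complex.exp (2 * (Complex.I * φ)) = Complex.exp (Complex.I * (φ / 2)) ^ 4 := by
      rw [← Complex.exp_nat_mul]; push_cast; ring_nf
    rw [e4] at n1 ⊢
    rw [e5] at n2 ⊢
    rw [e7]
    rw [e6, ← r1] at r2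
    have np := Complex.exp_ne_zero (Complex.I * (π * df φ))
    have nq := Complex.exp_ne_zero (Complex.I * (φ / 2))
    set p := Complex.exp (Complex.I * (π * df φ))
    set q := Complex.exp (Complex.I * (φ / 2))
    rw [mul_one, div_div, div_eq_one_iff_eq (mul_ne_zero n2 (pow_ne_zero 4 nq))]
    field_simp
    linear_combination (1 - q ^ 2) * r2
  · rw [Complex.add_im, Complex.sub_im, Complex.sub_im, e1, e2]
    linarith
  · rw [Complex.add_im, Complex.sub_im, Complex.sub_im, e1, e2]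
    linarith

/-! ### `EE` is constant -/

theorem Xf_deriv (φ : ℂ) : HasDerivAt Xf (2 * Complex.sin φ) φ := by
  have h := (((Complex.hasDerivAt_cos φ).const_mul 2).const_add 1).neg
  unfold Xf
  refine h.congr_deriv ?_
  ring

theorem df_deriv {φ : ℂ} (h1 : 2 * π / 3 < φ.re) (h2 : φ.re < π) :
    HasDerivAt df (2 * Complex.sin φ / Xf φ / (2 * π * Complex.I)) φ :=
  ((Xf_deriv φ).clog (Xf_slit h1 h2)).div_const _

/-- the derivative of `EE` -/
theorem EE_deriv {φ : ℂ} (h1 : 2 * π / 3 < φ.re) (h2 : φ.re < π) (h3 : 0 ≤ φ.im) :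
    HasDerivAt EE (2 * Complex.sin φ / Xf φ / (2 * π * Complex.I) *
      (Complex.log (2 * Complex.cos (π * df φ + φ / 2)) +
      Complex.log (2 * Complex.cos (π * df φ - φ / 2)) - Complex.log (2 * Complex.sin (π * df φ)) +
      π * Complex.I / 2 + Complex.I * (π * df φ)) +
      1 / (2 * π) * (Complex.log (2 * Complex.cos (π * df φ + φ / 2)) -
      Complex.log (2 * Complex.cos (π * df φ - φ / 2)) - 2 * (Complex.I * φ) +
      2 * (π * Complex.I))) φ := by
  have hp : (π : ℂ) ≠ 0 := by exact_mod_cast Real.pi_ne_zero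
  have d0 := df_deriv h1 h2
  set d' := 2 * Complex.sin φ / Xf φ / (2 * π * Complex.I) with hd'
  have d1 := d0.const_mul (π : ℂ)
  have d2 : HasDerivAt (fun φ : ℂ => φ / 2) (1 / 2) φ := (hasDerivAt_id φ).div_const 2
  have d3 : HasDerivAt (fun φ : ℂ => π * df φ + φ / 2) (π * d' + 1 / 2) φ := d1.add d2
  have d4 : HasDerivAt (fun φ : ℂ => π * df φ - φ / 2) (π * d' - 1 / 2) φ := d1.sub d2
  have l1 : HasDerivAt (fun φ => LL (π * df φ + φ / 2))
      (Complex.log (2 * Complex.cos (π * df φ + φ / 2)) * (π * d' + 1 / 2)) φ :=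
    HasDerivAt.comp (h₂ := LL) φ (LL_deriv (mem1 h1 h2 h3)) d3
  have l2 : HasDerivAt (fun φ => LL (π * df φ - φ / 2))
      (Complex.log (2 * Complex.cos (π * df φ - φ / 2)) * (π * d' - 1 / 2)) φ :=
    HasDerivAt.comp (h₂ := LL) φ (LL_deriv (mem2 h1 h2 h3)) d4
  have l3 : HasDerivAt (fun φ => LS (π * df φ))
      (Complex.log (2 * Complex.sin (π * df φ)) * (π * d')) φ :=
    HasDerivAt.comp (h₂ := LS) φ (LS_deriv (mem3 h1 h2 h3)) d1
  have l4 : HasDerivAt (fun φ => df φ + df φ ^ 2) (d' + 2 * df φ * d') φ := by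
    refine (d0.add (d0.pow 2)).congr_deriv ?_
    push_cast
    ring
  have l5 : HasDerivAt (fun φ : ℂ => Complex.I * φ ^ 2 / (2 * π))
      (Complex.I * (2 * φ) / (2 * π)) φ := by
    refine (((hasDerivAt_pow 2 φ).const_mul Complex.I).div_const (2 * π : ℂ)).congr_deriv ?_
    push_cast
    ring
  have l6 : HasDerivAt (fun φ : ℂ => Complex.I * φ) Complex.I φ := by
    simpa using (hasDerivAt_id φ).const_mul Complex.I
  have t := (((((l1.add l2).div_const (π : ℂ)).sub (l3.div_const (π : ℂ))).add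
    (l4.const_mul (π * Complex.I / 2))).sub l5).add l6
  unfold EE RR
  refine t.congr_deriv ?_
  field_simp
  ring

theorem EE_deriv_zero {φ : ℂ} (h : φ ∈ W) : HasDerivAt EE 0 φ := by
  have t := EE_deriv h.1 h.2.1 h.2.2.le
  rw [crit1 h, crit2 h, mul_zero, mul_zero, add_zero] at t
  exact t

theorem W_convex : Convex ℝ W := by
  have e : W = {φ : ℂ | 2 * π / 3 < φ.re} ∩ ({φ : ℂ | φ.re < π} ∩ {φ : ℂ | 0 < φ.im}) := by
    ext φ; rfl
  rw [e]
  exact (convex_halfSpace_re_gt _).inter ((convex_halfSpace_re_lt _).inter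
    (convex_halfSpace_im_gt _))

theorem W_open : IsOpen W := by
  have e : W = {φ : ℂ | 2 * π / 3 < φ.re} ∩ ({φ : ℂ | φ.re < π} ∩ {φ : ℂ | 0 < φ.im}) := by
    ext φ; rfl
  rw [e]
  exact (isOpen_lt continuous_const Complex.continuous_re).inter
    ((isOpen_lt Complex.continuous_re continuous_const).inter
    (isOpen_lt continuous_const Complex.continuous_im))

theorem EE_const {φ φ' : ℂ} (h : φ ∈ W) (h' : φ' ∈ W) : EE φ = EE φ' := by
  apply W_convex.is_const_of_fderivWithin_eq_zero (𝕜 := ℂ) (f := EE) _ _ h h'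
  · intro z hz
    exact (EE_deriv_zero hz).differentiableAt.differentiableWithinAt
  · intro z hz
    rw [fderivWithin_of_isOpen W_open hz]
    have := (EE_deriv_zero hz).hasFDerivAt.fderiv
    rw [this]
    ext
    simp

/-! ### The value -/

theorem LL_neg (w : ℂ) : LL (-w) = -LL w := by
  unfold LL
  rw [neg_mul]
  congr 2
  apply intervalIntegral.integral_congr
  intro t _
  simp

theorem LL_conj {w : ℂ} (h : w ∈ WC) : LL ((starRingEnd ℂ) w) = (starRingEnd ℂ) (LL w) := by
  unfold LL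
  rw [map_mul, ← intervalIntegral.intervalIntegral_conj]
  congr 1
  apply intervalIntegral.integral_congr
  intro t ht
  rw [uIcc_of_le zero_le_one] at ht
  simp only
  have h1 : 2 * Complex.cos ((t : ℂ) * w) ∈ Complex.slitPlane :=
    two_mul_mem (cos_mem (star_WC h ht))
  rw [← Complex.log_conj _ (Complex.mem_slitPlane_iff_arg.1 h1).1, map_mul, ← Complex.cos_conj,
    map_mul, Complex.conj_ofReal, Complex.conj_ofNat]

theorem LS_im {y : ℝ} (hy : 0 < y) : (LS (π * (y * Complex.I)) / π).re = -(π * y / 2) := by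
  have hp := Real.pi_pos
  have hp0 : (π : ℂ) ≠ 0 := by exact_mod_cast hp.ne'
  have hm : (π * (y * Complex.I) : ℂ) ∈ WS := by
    refine ⟨?_, ?_, Or.inr ?_⟩
    · simp; linarith
    · simp; linarith
    · simp; exact hy.ne'
  have e1 : LS (π * (y * Complex.I)) / π = ssF (y * Complex.I) := by
    rw [LS_eq, mul_div_cancel_left₀ _ hp0, mul_div_cancel_left₀ _ hp0]
  have e2 := Pool.Agent.W398.HT.ss_eq (V := {δ : ℂ | π * δ ∈ WS})
    (fun δ hδ t ht => kk_mem hδ ht) (y * Complex.I) hm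
  have hc := Pool.Agent.W398.HT.contLk (V := {δ : ℂ | π * δ ∈ WS})
    (fun δ hδ t ht => kk_mem hδ ht) (y * Complex.I) hm
  have e3 : (∫ t in (0 : ℝ)..1, Complex.log (Pool.Agent.W398.HT.kk (y * Complex.I) t)).im =
      π / 2 := by
    have e4 : (∫ t in (0 : ℝ)..1, Complex.log (Pool.Agent.W398.HT.kk (y * Complex.I) t)).im =
        ∫ t in (0 : ℝ)..1, (Complex.log (Pool.Agent.W398.HT.kk (y * Complex.I) t)).im := by
      have := Complex.imCLM.intervalIntegral_comp_comm (hc.intervalIntegrable (μ := volume))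
      simpa using this.symm
    rw [e4]
    have e5 : ∀ t ∈ uIcc (0 : ℝ) 1,
        (Complex.log (Pool.Agent.W398.HT.kk (y * Complex.I) t)).im = π / 2 := by
      intro t ht
      rw [uIcc_of_le zero_le_one] at ht
      rw [Complex.log_im, Complex.arg_eq_pi_div_two_iff]
      rcases ht.1.eq_or_lt with h0 | h0
      · rw [← h0]
        unfold Pool.Agent.W398.HT.kk
        simp only [Complex.ofReal_zero, mul_zero, Pool.Agent.W398.HT.sc_zero, mul_one]
        constructor
        · simp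
        · simp
          positivity
      · have h1 := Pool.Agent.W398.HT.sin_kk (y * Complex.I) t
        have h3 : Pool.Agent.W398.HT.kk (y * Complex.I) t =
            ((t⁻¹ : ℝ) : ℂ) * (2 * Complex.sin (π * (y * Complex.I) * t)) := by
          rw [h1]
          have h2 : (t : ℂ) ≠ 0 := by exact_mod_cast h0.ne'
          push_cast
          field_simp
        have h4 : (π * (y * Complex.I) * t : ℂ).re = 0 := by simp
        have h5 : (π * (y * Complex.I) * t : ℂ).im = π * y * t := by simp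
        rw [h3, Complex.re_ofReal_mul, Complex.im_ofReal_mul]
        have h6 : (2 * Complex.sin (π * (y * Complex.I) * t) : ℂ).re = 0 := by
          have : (2 * Complex.sin (π * (y * Complex.I) * t) : ℂ).re =
            2 * (Complex.sin (π * (y * Complex.I) * t)).re := by simp
          rw [this, sin_re', h4]
          simp
        have h7 : (2 * Complex.sin (π * (y * Complex.I) * t) : ℂ).im =
            2 * Real.sinh (π * y * t) := by
          have : (2 * Complex.sin (π * (y * Complex.I) * t) : ℂ).im =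
            2 * (Complex.sin (π * (y * Complex.I) * t)).im := by simp
          rw [this, sin_im', h4, h5]
          simp
        rw [h6, h7]
        have h8 : 0 < Real.sinh (π * y * t) := Real.sinh_pos_iff.2 (by positivity)
        constructor
        · simp
        · positivity
    rw [intervalIntegral.integral_congr e5]
    simp
  rw [e1, e2, show ((y : ℂ) * Complex.I * (-1 + ∫ t in (0 : ℝ)..1,
    Complex.log (Pool.Agent.W398.HT.kk (y * Complex.I) t))) = (y : ℂ) * (Complex.I *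
      (-1 + ∫ t in (0 : ℝ)..1, Complex.log (Pool.Agent.W398.HT.kk (y * Complex.I) t))) by ring,
    Complex.re_ofReal_mul, Complex.I_mul_re, Complex.add_im, e3]
  simp
  ring

/-- the value at real points -/
theorem EE_real {x : ℝ} (h1 : 2 * π / 3 < x) (h2 : x < π) : (EE x).re = 0 := by
  have hp := Real.pi_pos
  obtain ⟨b1, b2, b3⟩ := cos23 h1 h2
  set X : ℝ := -1 - 2 * Real.cos x with hX
  have hX0 : 0 < X := by rw [hX]; linarith
  have hX1 : X < 1 := by rw [hX]; linarith
  set y : ℝ := -(Real.log X) / (2 * π) with hy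
  have hlog : Real.log X < 0 := Real.log_neg hX0 hX1
  have hy0 : 0 < y := by rw [hy]; apply div_pos <;> linarith
  have e1 : Xf x = (X : ℂ) := by
    apply Complex.ext
    · rw [Xf_re, Complex.ofReal_im, Complex.ofReal_re, Complex.ofReal_re, Real.cosh_zero]
      rw [hX]; ring
    · rw [Xf_im, Complex.ofReal_im, Complex.ofReal_im, Real.sinh_zero]; ring
  have e2 : df x = y * Complex.I := by
    have hp0 : (π : ℂ) ≠ 0 := by exact_mod_cast hp.ne'
    unfold df
    rw [e1, ← Complex.ofReal_log hX0.le, hy]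
    push_cast
    field_simp
    rw [Complex.I_sq]
    ring
  have hm : (x / 2 + π * (y * Complex.I) : ℂ) ∈ WC := by
    have : |(x / 2 + π * (y * Complex.I) : ℂ).re| < π / 2 := by
      have : (x / 2 + π * (y * Complex.I) : ℂ).re = x / 2 := by simp
      rw [this, abs_of_pos (by linarith)]
      linarith
    exact ⟨by linarith, Or.inl this⟩
  have e3 : (RR (df x) x).re = 0 := by
    unfold RR
    rw [e2, show (π * (y * Complex.I) + x / 2 : ℂ) = x / 2 + π * (y * Complex.I) by ring,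
      show (π * (y * Complex.I) - x / 2 : ℂ) =
        -((starRingEnd ℂ) (x / 2 + π * (y * Complex.I))) by
          rw [map_add, map_div₀, map_mul, map_mul, Complex.conj_I, Complex.conj_ofReal,
            Complex.conj_ofReal, Complex.conj_ofReal, map_ofNat]
          ring, LL_neg, LL_conj hm]
    rw [Complex.div_ofReal_re]
    simp
  have e4 : (LS (π * df x) / π).re = -(π * y / 2) := by rw [e2]; exact LS_im hy0
  have e5 : (π * Complex.I / 2 * (df x + df x ^ 2) : ℂ).re = -(π * y / 2) := by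
    rw [e2]
    have : (π * Complex.I / 2 * (y * Complex.I + (y * Complex.I) ^ 2) : ℂ) =
        ((-(π * y / 2) : ℝ) : ℂ) + ((-(π * y ^ 2 / 2) : ℝ) : ℂ) * Complex.I := by
      push_cast
      linear_combination (π * y / 2 + π / 2 * y ^ 2 * Complex.I : ℂ) * Complex.I_sq
    rw [this, Complex.add_re, Complex.ofReal_re, Complex.re_ofReal_mul, Complex.I_re]
    ring
  have e6 : (Complex.I * (x : ℂ) ^ 2 / (2 * π)).re = 0 := by
    have : (Complex.I * (x : ℂ) ^ 2 / (2 * π)) = ((x ^ 2 / (2 * π) : ℝ) : ℂ) * Complex.I := by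
      push_cast; ring
    rw [this, Complex.re_ofReal_mul, Complex.I_re, mul_zero]
  have e7 : (Complex.I * (x : ℂ)).re = 0 := by simp
  unfold EE
  rw [Complex.add_re, Complex.sub_re, Complex.add_re, Complex.sub_re, e3, e4, e5, e6, e7]
  ring

/-- the real part of the constant is zero -/
theorem EE_re {φ : ℂ} (h : φ ∈ W) : (EE φ).re = 0 := by
  have c1 : ContinuousAt EE (φ.re : ℂ) :=
    (EE_deriv (φ := (φ.re : ℂ)) (by simpa using h.1) (by simpa using h.2.1) (by simp)).continuousAt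
  have c2 : Tendsto (fun y : ℝ => ((φ.re : ℂ) + y * Complex.I)) (𝓝[>] 0) (𝓝 (φ.re : ℂ)) := by
    have : Tendsto (fun y : ℝ => ((φ.re : ℂ) + y * Complex.I)) (𝓝 0) (𝓝 ((φ.re : ℂ) +
        (0 : ℝ) * Complex.I)) := by
      apply Continuous.tendsto
      fun_prop
    rw [Complex.ofReal_zero, zero_mul, add_zero] at this
    exact this.mono_left nhdsWithin_le_nhds
  have c3 : Tendsto (fun y : ℝ => EE ((φ.re : ℂ) + y * Complex.I)) (𝓝[>] 0)
      (𝓝 (EE (φ.re : ℂ))) := c1.tendsto.comp c2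
  have c4 : Tendsto (fun y : ℝ => EE ((φ.re : ℂ) + y * Complex.I)) (𝓝[>] 0) (𝓝 (EE φ)) := by
    apply tendsto_const_nhds.congr'
    filter_upwards [self_mem_nhdsWithin] with y hy
    apply EE_const h
    refine ⟨?_, ?_, ?_⟩
    · simpa using h.1
    · simpa using h.2.1
    · simpa using hy
  rw [tendsto_nhds_unique c4 c3]
  exact EE_real h.1 h.2.1

end Pool.Agent.N566.VS
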