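import Pool.Agent.N566.VS.K9A

/-!
# Clasps: the two descriptions of the critical value, with local copies of the definitions
-/

set_option autoImplicit false

namespace Pool.Agent.N566.VS

open Filter Topology Metric MeasureTheory Set
open Pool.Agent.W711.HT Pool.Agent.N561 Pool.Agent.N119.VS
open scoped Real

/-- the potential of the sum -/
noncomputable def QC' (ψ δ : ℂ) : ℂ :=
  RR δ ψ - 3 * (LS (π * δ) / π) - π * Complex.I / 2 * (δ + δ ^ 2)

/-- its critical point -/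
noncomputable def dc' (ψ : ℂ) : ℂ :=
  Complex.log (1 + 2 * Complex.I * Complex.cos (ψ / 2)) / (2 * π * Complex.I)

/-- its critical value -/
noncomputable def FC' (ψ : ℂ) : ℂ := QC' ψ (dc' ψ)

/-- the variable of the clasp -/
noncomputable def zc' (ψ : ℂ) : ℂ := -Complex.I * Complex.log (-1 - Complex.I *
  Complex.cos (ψ / 2) + (2 * Complex.I * Complex.cos (ψ / 2) - Complex.cos (ψ / 2) ^ 2) ^
  (1 / 2 : ℂ))

/-- under the square root -/
noncomputable def qv (ψ : ℂ) : ℂ := 2 * Complex.I * Complex.cos (ψ / 2) - Complex.cos (ψ / 2) ^ 2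

/-- the exponential -/
noncomputable def Uv (ψ : ℂ) : ℂ := -1 - Complex.I * Complex.cos (ψ / 2) + qv ψ ^ (1 / 2 : ℂ)

theorem zc_eq (ψ : ℂ) : zc' ψ = -Complex.I * Complex.log (Uv ψ) := rfl

theorem half_sq (z : ℂ) : (z ^ (1 / 2 : ℂ)) ^ 2 = z := by
  have := Complex.cpow_nat_inv_pow z (n := 2) (by norm_num)
  rw [one_div]
  exact_mod_cast this

theorem U_rel (ψ : ℂ) :
    Uv ψ ^ 2 + 2 * (1 + Complex.I * Complex.cos (ψ / 2)) * Uv ψ + 1 = 0 := by
  have h1 := half_sq (qv ψ)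
  have h2 : qv ψ ^ (1 / 2 : ℂ) = Uv ψ + (1 + Complex.I * Complex.cos (ψ / 2)) := by
    rw [Uv]; ring
  rw [h2, qv] at h1
  linear_combination h1 - Complex.cos (ψ / 2) ^ 2 * Complex.I_sq

theorem U_ne (ψ : ℂ) : Uv ψ ≠ 0 := by
  intro h
  have := U_rel ψ
  rw [h] at this
  simp at this

theorem exp_zc (ψ : ℂ) : Complex.exp (Complex.I * zc' ψ) = Uv ψ := by
  rw [zc_eq, show Complex.I * (-Complex.I * Complex.log (Uv ψ)) = Complex.log (Uv ψ) by
    linear_combination (-Complex.log (Uv ψ)) * Complex.I_sq]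
  exact Complex.exp_log (U_ne ψ)

theorem cos_zc (ψ : ℂ) : Complex.cos (zc' ψ) = -1 - Complex.I * Complex.cos (ψ / 2) := by
  have h1 := cos_exp (zc' ψ)
  rw [exp_zc] at h1
  have h2 := U_rel ψ
  have h3 := U_ne ψ
  have h4 : Uv ψ + (Uv ψ)⁻¹ = 2 * (-1 - Complex.I * Complex.cos (ψ / 2)) := by
    field_simp
    linear_combination h2
  linear_combination (h1 + h4) / 2

theorem Xf_zc (ψ : ℂ) : Xf (zc' ψ) = 1 + 2 * Complex.I * Complex.cos (ψ / 2) := by
  rw [Xf, cos_zc]; ring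

theorem df_zc (ψ : ℂ) : df (zc' ψ) = dc' ψ := by
  rw [df, dc', Xf_zc]

theorem zc_re (ψ : ℂ) : (zc' ψ).re = (Uv ψ).arg := by
  rw [zc_eq]; simp [Complex.log_im]

theorem zc_im (ψ : ℂ) : (zc' ψ).im = -Real.log ‖Uv ψ‖ := by
  rw [zc_eq]; simp [Complex.log_re]

theorem sqrt_re_pos {z : ℂ} (h : z ∈ Complex.slitPlane) : 0 < (z ^ (1 / 2 : ℂ)).re := by
  have h1 := Complex.mem_slitPlane_iff_arg.1 h
  have h2 := Complex.arg_le_pi z
  have h3 := Complex.neg_pi_lt_arg z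
  have h4 : z.arg < π := lt_of_le_of_ne h2 h1.1
  rw [Complex.cpow_def_of_ne_zero h1.2, Complex.exp_re]
  apply mul_pos (Real.exp_pos _)
  have e : (Complex.log z * (1 / 2)).im = z.arg / 2 := by
    rw [show Complex.log z * (1 / 2) = Complex.log z / 2 by ring, half_im, Complex.log_im]
  rw [e]
  exact Real.cos_pos_of_mem_Ioo ⟨by linarith, by linarith⟩

theorem qv_zero : qv 0 = -1 + 2 * Complex.I := by
  simp [qv]; ring

theorem qv_slit : qv 0 ∈ Complex.slitPlane := by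
  rw [qv_zero, Complex.mem_slitPlane_iff]
  right
  simp

/-- `U(0) = (a - 1) + (b - 1) i` -/
theorem U_zero : (Uv 0).re < 0 ∧ 0 < (Uv 0).im ∧ ‖Uv 0‖ < 1 := by
  have h1 := half_sq (qv 0)
  have h2 := sqrt_re_pos qv_slit
  have h3 : Uv 0 = -1 - Complex.I + qv 0 ^ (1 / 2 : ℂ) := by simp [Uv]
  set s := qv 0 ^ (1 / 2 : ℂ) with hs
  rw [qv_zero] at h1
  have r1 : s.re ^ 2 - s.im ^ 2 = -1 := by
    have := congrArg Complex.re h1
    simp [pow_two] at this
    linarith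
  have r2 : s.re * s.im = 1 := by
    have := congrArg Complex.im h1
    simp [pow_two] at this
    linarith
  have e1 : (Uv 0).re = s.re - 1 := by rw [h3]; simp; ring
  have e2 : (Uv 0).im = s.im - 1 := by rw [h3]; simp; ring
  have hb : 0 < s.im := by
    by_contra hc
    push Not at hc
    nlinarith
  have hb1 : 1 < s.im := by nlinarith
  have ha1 : s.re < 1 := by nlinarith
  have hb2 : s.im < 3 / 2 := by
    by_contra hc
    push Not at hc
    have h5 : s.re ^ 2 * s.im ^ 2 = 1 := by rw [← mul_pow, r2]; norm_num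
    have h6 : s.re ^ 2 = s.im ^ 2 - 1 := by linarith
    rw [h6] at h5
    nlinarith
  have ha2 : 2 / 3 < s.re := by nlinarith
  refine ⟨by linarith, by linarith, ?_⟩
  have h7 : ‖Uv 0‖ ^ 2 = (Uv 0).re ^ 2 + (Uv 0).im ^ 2 := by
    rw [← Complex.normSq_eq_norm_sq, Complex.normSq_apply]; ring
  rw [e1, e2] at h7
  have h8 : ‖Uv 0‖ ^ 2 < 1 ^ 2 := by nlinarith
  exact lt_of_pow_lt_pow_left₀ 2 (by norm_num) h8

theorem zc_zero_mem : zc' 0 ∈ W := by
  have hp := Real.pi_pos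
  obtain ⟨u1, u2, u3⟩ := U_zero
  have hx0 : 0 < (zc' 0).re := by
    rw [zc_re]
    have h1 := Complex.arg_nonneg_iff.2 u2.le
    rcases h1.eq_or_lt with h2 | h2
    · have := (Complex.arg_eq_zero_iff.1 h2.symm).2
      linarith
    · exact h2
  have hx1 : (zc' 0).re < π := by
    rw [zc_re]
    have h1 := Complex.arg_le_pi (Uv 0)
    rcases h1.eq_or_lt with h2 | h2
    · have := (Complex.arg_eq_pi_iff.1 h2).2
      linarith
    · exact h2
  have hy : 0 < (zc' 0).im := by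
    rw [zc_im]
    have := Real.log_neg (norm_pos_iff.2 (U_ne 0)) u3
    linarith
  have hc := cos_zc 0
  have c1 : Real.cos (zc' 0).re * Real.cosh (zc' 0).im = -1 := by
    rw [← cos_re', hc]; simp
  have c2 : Real.sin (zc' 0).re * Real.sinh (zc' 0).im = 1 := by
    have : -(Real.sin (zc' 0).re * Real.sinh (zc' 0).im) = -1 := by
      rw [← cos_im', hc]; simp
    linarith
  refine ⟨?_, hx1, hy⟩
  by_contra hlt
  push Not at hlt
  have h3 : Real.cos (2 * π / 3) ≤ Real.cos (zc' 0).re :=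
    Real.cos_le_cos_of_nonneg_of_le_pi hx0.le (by linarith) hlt
  have h4 : Real.cos (2 * π / 3) = -(1 / 2) := by
    rw [show 2 * π / 3 = π - π / 3 by ring, Real.cos_pi_sub, Real.cos_pi_div_three]
  rw [h4] at h3
  have h5 := Real.one_le_cosh (zc' 0).im
  have h6 : Real.cosh (zc' 0).im ^ 2 - Real.sinh (zc' 0).im ^ 2 = 1 := by
    have := Real.cosh_sq (zc' 0).im; linarith
  have h7 := Real.sin_sq_add_cos_sq (zc' 0).re
  set k := Real.cos (zc' 0).re
  set s := Real.sin (zc' 0).re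
  set C := Real.cosh (zc' 0).im
  set S := Real.sinh (zc' 0).im
  have h8 : 2 ≤ C := by nlinarith
  have h9 : k ^ 2 * C ^ 2 = 1 := by rw [← mul_pow, c1]; norm_num
  have h10 : s ^ 2 * S ^ 2 = 1 := by rw [← mul_pow, c2]; norm_num
  have h11 : S ^ 2 = C ^ 2 - 1 := by linarith
  have h12 : s ^ 2 = 1 - k ^ 2 := by linarith
  rw [h11, h12] at h10
  nlinarith

/-! ### `dst` on the curve -/

theorem dst_zc {ψ : ℂ} (h : zc' ψ ∈ W)
    (h2 : 0 < (Complex.cos (zc' ψ / 2) * (1 + Complex.I * Complex.cos (ψ / 2))).re) :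
    dst ψ (zc' ψ) = dc' ψ := by
  have hp : (π : ℂ) ≠ 0 := by exact_mod_cast Real.pi_ne_zero
  set w := Complex.cos (zc' ψ / 2) * (1 + Complex.I * Complex.cos (ψ / 2)) with hw
  have hw0 : w ≠ 0 := by
    intro h0
    rw [h0] at h2
    simp at h2
  have hc0 : Complex.cos (zc' ψ / 2) ≠ 0 := fun h0 => hw0 (by rw [hw, h0, zero_mul])
  have hd0 : 1 + Complex.I * Complex.cos (ψ / 2) ≠ 0 := fun h0 => hw0 (by rw [hw, h0, mul_zero])
  have e1 : Complex.cos (zc' ψ / 2) ^ 2 = -(Complex.I * Complex.cos (ψ / 2)) / 2 := by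
    have h3 := Complex.cos_sq (zc' ψ / 2)
    rw [show 2 * (zc' ψ / 2) = zc' ψ by ring, cos_zc] at h3
    rw [h3]; ring
  have e2 : Complex.sin (zc' ψ / 2) ^ 2 = 1 + Complex.I * Complex.cos (ψ / 2) / 2 := by
    have h3 := Complex.sin_sq_add_cos_sq (zc' ψ / 2)
    linear_combination h3 - e1
  have e3 : Complex.sin (ψ / 2) ^ 2 = 1 - Complex.cos (ψ / 2) ^ 2 := by
    have h3 := Complex.sin_sq_add_cos_sq (ψ / 2)
    linear_combination h3
  have e4 : 1 - Complex.sin (ψ / 2) ^ 2 * Complex.sin (zc' ψ / 2) ^ 2 = w ^ 2 := by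
    rw [e2, e3, hw, mul_pow, e1]
    linear_combination (Complex.I * Complex.cos (ψ / 2) ^ 3 / 2 + Complex.cos (ψ / 2) ^ 2) *
      Complex.I_sq
  have e5 : (1 - Complex.sin (ψ / 2) ^ 2 * Complex.sin (zc' ψ / 2) ^ 2) ^ (1 / 2 : ℂ) = w := by
    rw [e4, one_div]
    exact Complex.sq_cpow_two_inv h2
  have e6 : Complex.cos (ψ / 2) * Complex.cos (zc' ψ / 2) / w =
      Complex.cos (ψ / 2) / (1 + Complex.I * Complex.cos (ψ / 2)) := by
    rw [hw]
    field_simp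
  rw [dst, e5, e6, Complex.arctan, dc']
  generalize Complex.cos (ψ / 2) = c at hd0
  have e7 : (1 + c / (1 + Complex.I * c) * Complex.I) /
      (1 - c / (1 + Complex.I * c) * Complex.I) = 1 + 2 * Complex.I * c := by
    generalize hD : 1 + Complex.I * c = D at hd0
    have e8 : 1 - c / D * Complex.I = 1 / D := by
      field_simp
      linear_combination -hD
    rw [e8]
    field_simp
    linear_combination -hD
  rw [e7]
  generalize Complex.log (1 + 2 * Complex.I * c) = L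
  have hI := Complex.I_ne_zero
  field_simp
  linear_combination (-L) * Complex.I_sq

/-! ### The condition at the vertex -/

theorem Lg_zc {ψ : ℂ} (h : zc' ψ ∈ W) :
    Lg (2 * π * dc' ψ) (zc' ψ) = -(2 * (Complex.I * zc' ψ)) + 2 * (π * Complex.I) := by
  have hp := Real.pi_pos
  have hc := crit2 h
  obtain ⟨h1, h2, h3⟩ := h
  have n1 : 2 * Complex.cos (π * df (zc' ψ) + zc' ψ / 2) ≠ 0 :=
    Complex.slitPlane_ne_zero (two_mul_mem (cos_mem (mem1 h1 h2 h3.le)))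
  have n2 : 2 * Complex.cos (π * df (zc' ψ) - zc' ψ / 2) ≠ 0 :=
    Complex.slitPlane_ne_zero (two_mul_mem (cos_mem (mem2 h1 h2 h3.le)))
  rw [df_zc] at hc n1 n2
  unfold Lg
  rw [show (2 * π * dc' ψ - zc' ψ) / 2 = π * dc' ψ - zc' ψ / 2 by ring,
    show (2 * π * dc' ψ + zc' ψ) / 2 = π * dc' ψ + zc' ψ / 2 by ring]
  have e1 : Complex.cos (π * dc' ψ - zc' ψ / 2) / Complex.cos (π * dc' ψ + zc' ψ / 2) =
      Complex.exp (-(2 * (Complex.I * zc' ψ)) + 2 * (π * Complex.I)) := by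
    have e2 : -(2 * (Complex.I * zc' ψ)) + 2 * (π * Complex.I) =
        Complex.log (2 * Complex.cos (π * dc' ψ - zc' ψ / 2)) -
        Complex.log (2 * Complex.cos (π * dc' ψ + zc' ψ / 2)) := by
      linear_combination hc
    rw [e2, Complex.exp_sub, Complex.exp_log n1, Complex.exp_log n2]
    exact (mul_div_mul_left _ _ two_ne_zero).symm
  have e3 : (-(2 * (Complex.I * zc' ψ)) + 2 * (π * Complex.I)).im =
      -(2 * (zc' ψ).re) + 2 * π := by
    simp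
  rw [e1, Complex.log_exp]
  · rw [e3]; linarith
  · rw [e3]; linarith

/-! ### Near `ψ = 0` -/

theorem zc_diff {ψ : ℂ} (h1 : qv ψ ∈ Complex.slitPlane) (h2 : Uv ψ ∈ Complex.slitPlane) :
    DifferentiableAt ℂ zc' ψ := by
  have d1 : DifferentiableAt ℂ qv ψ := by
    unfold qv
    fun_prop
  have d2 : DifferentiableAt ℂ (fun ψ => qv ψ ^ (1 / 2 : ℂ)) ψ := d1.cpow_const h1
  have d3 : DifferentiableAt ℂ Uv ψ := by
    unfold Uv
    exact (DifferentiableAt.sub (by fun_prop) (by fun_prop)).add d2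
  have d4 : DifferentiableAt ℂ (fun ψ => Complex.log (Uv ψ)) ψ := d3.clog h2
  have d5 : DifferentiableAt ℂ (fun ψ => -Complex.I * Complex.log (Uv ψ)) ψ := d4.const_mul _
  exact d5

theorem U_slit : Uv 0 ∈ Complex.slitPlane := by
  rw [Complex.mem_slitPlane_iff]
  exact Or.inr U_zero.2.1.ne'

theorem near0 (g : ℝ) (hg : 0 < g) : ∀ᶠ ψ : ℂ in 𝓝 0, qv ψ ∈ Complex.slitPlane ∧
    Uv ψ ∈ Complex.slitPlane ∧ zc' ψ ∈ W ∧ ‖zc' ψ - zc' 0‖ < g ∧
    0 < (Complex.cos (zc' ψ / 2) * (1 + Complex.I * Complex.cos (ψ / 2))).re := by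
  have hp := Real.pi_pos
  have c1 : ContinuousAt qv 0 := by
    unfold qv
    fun_prop
  have c2 : ContinuousAt Uv 0 := by
    have d1 : DifferentiableAt ℂ qv 0 := by
      unfold qv
      fun_prop
    have d2 : DifferentiableAt ℂ (fun ψ => qv ψ ^ (1 / 2 : ℂ)) 0 := d1.cpow_const qv_slit
    have d3 : DifferentiableAt ℂ Uv 0 := by
      unfold Uv
      exact (DifferentiableAt.sub (by fun_prop) (by fun_prop)).add d2
    exact d3.continuousAt
  have c3 : ContinuousAt zc' 0 := (zc_diff qv_slit U_slit).continuousAt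
  have e1 := c1.eventually (Complex.isOpen_slitPlane.mem_nhds qv_slit)
  have e2 := c2.eventually (Complex.isOpen_slitPlane.mem_nhds U_slit)
  have e3 := c3.eventually (W_open.mem_nhds zc_zero_mem)
  have e4 := c3.eventually (Metric.ball_mem_nhds (zc' 0) hg)
  have c5 : ContinuousAt (fun ψ => (Complex.cos (zc' ψ / 2) *
      (1 + Complex.I * Complex.cos (ψ / 2))).re) 0 := by
    apply Complex.continuous_re.continuousAt.comp
    apply ContinuousAt.mul
    · exact Complex.continuous_cos.continuousAt.comp (c3.div_const 2)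
    · fun_prop
  have v0 : 0 < (Complex.cos (zc' 0 / 2) * (1 + Complex.I * Complex.cos (0 / 2))).re := by
    obtain ⟨h1, h2, h3⟩ := zc_zero_mem
    have f1 : Complex.cos (zc' 0 / 2) ^ 2 = -Complex.I / 2 := by
      have h3 := Complex.cos_sq (zc' 0 / 2)
      rw [show 2 * (zc' 0 / 2) = zc' 0 by ring, cos_zc] at h3
      rw [h3]
      simp
      ring
    have f2 : 0 < (Complex.cos (zc' 0 / 2)).re := by
      rw [cos_re', half_re]
      exact mul_pos (Real.cos_pos_of_mem_Ioo ⟨by linarith, by linarith⟩) (Real.cosh_pos _)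
    have f3 : (Complex.cos (zc' 0 / 2)).im < 0 := by
      rw [cos_im', half_re, half_im]
      have g1 := Real.sin_pos_of_pos_of_lt_pi (x := (zc' 0).re / 2) (by linarith) (by linarith)
      have g2 := Real.sinh_pos_iff.2 (show 0 < (zc' 0).im / 2 by linarith)
      have := mul_pos g1 g2
      linarith
    have f4 : (Complex.cos (zc' 0 / 2) * (1 + Complex.I * Complex.cos (0 / 2))).re =
        (Complex.cos (zc' 0 / 2)).re - (Complex.cos (zc' 0 / 2)).im := by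
      rw [zero_div, Complex.cos_zero, mul_one, Complex.mul_re]
      simp
    rw [f4]
    linarith
  have e5 := c5.eventually (lt_mem_nhds v0)
  filter_upwards [e1, e2, e3, e4, e5] with ψ a1 a2 a3 a4 a5
  refine ⟨a1, a2, a3, ?_, a5⟩
  rwa [← dist_eq_norm]

/-! ### The result -/

theorem isOpen_Rc (r s : ℝ) : IsOpen (Rc r s) :=
  (isOpen_lt (continuous_abs.comp Complex.continuous_re) continuous_const).inter
    (isOpen_lt (continuous_abs.comp Complex.continuous_im) continuous_const)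

theorem Rc_mono9 {r s : ℝ} (h : r ≤ s) {ψ : ℂ} (hψ : ψ ∈ Rc r r) : ψ ∈ Rc s s :=
  ⟨lt_of_lt_of_le hψ.1 h, lt_of_lt_of_le hψ.2 h⟩

theorem key {ψ : ℂ} (a3 : zc' ψ ∈ W)
    (a5 : 0 < (Complex.cos (zc' ψ / 2) * (1 + Complex.I * Complex.cos (ψ / 2))).re) :
    FC' ψ = qq (-2) (fun _ => 0) (zc' ψ) + sg ψ (zc' ψ) - EE (zc' 0) := by
  have hp : (π : ℂ) ≠ 0 := by exact_mod_cast Real.pi_ne_zero
  have e1 := dst_zc a3 a5
  rw [← EE_const a3 zc_zero_mem]
  unfold EE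
  rw [df_zc]
  unfold FC' QC' sg TH qq
  rw [e1]
  generalize RR (dc' ψ) ψ = A
  generalize RR (dc' ψ) (zc' ψ) = B
  generalize LS (π * dc' ψ) = L
  generalize dc' ψ = d
  generalize zc' ψ = z
  push_cast
  field_simp
  ring

theorem crit {ψ : ℂ} (a3 : zc' ψ ∈ W)
    (a5 : 0 < (Complex.cos (zc' ψ / 2) * (1 + Complex.I * Complex.cos (ψ / 2))).re)
    (s2 : HasDerivAt (fun z => sg ψ z)
      (-(1 / (2 * π)) * Lg (2 * π * dst ψ (zc' ψ)) (zc' ψ)) (zc' ψ)) :
    Complex.I * (-2) * zc' ψ / (2 * π) + Complex.I + deriv (fun w => sg ψ w) (zc' ψ) = 0 := by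
  have hp : (π : ℂ) ≠ 0 := by exact_mod_cast Real.pi_ne_zero
  rw [s2.deriv, dst_zc a3 a5, Lg_zc a3]
  generalize zc' ψ = z
  field_simp
  ring

/-- the chain rule -/
theorem chain {G : ℂ × ℂ → ℂ} {z : ℂ → ℂ} {ψ z' : ℂ} {G' : ℂ × ℂ →L[ℂ] ℂ}
    (hG : HasFDerivAt G G' (ψ, z ψ)) (hz : HasDerivAt z z' ψ) :
    HasDerivAt (fun t => G (t, z t))
      (deriv (fun t => G (t, z ψ)) ψ + z' * deriv (fun w => G (ψ, w)) (z ψ)) ψ := by
  have p1 : HasDerivAt (fun t : ℂ => (t, z t)) ((1 : ℂ), z') ψ := (hasDerivAt_id ψ).prodMk hz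
  have p2 : HasDerivAt (fun t : ℂ => (t, z ψ)) ((1 : ℂ), (0 : ℂ)) ψ :=
    (hasDerivAt_id ψ).prodMk (hasDerivAt_const _ _)
  have p3 : HasDerivAt (fun φ : ℂ => (ψ, φ)) ((0 : ℂ), (1 : ℂ)) (z ψ) :=
    (hasDerivAt_const _ _).prodMk (hasDerivAt_id _)
  have q1 : HasDerivAt (fun t => G (t, z t)) (G' ((1 : ℂ), z')) ψ := hG.comp_hasDerivAt ψ p1
  have q2 : HasDerivAt (fun t => G (t, z ψ)) (G' ((1 : ℂ), (0 : ℂ))) ψ := hG.comp_hasDerivAt ψ p2
  have q3 : HasDerivAt (fun w => G (ψ, w)) (G' ((0 : ℂ), (1 : ℂ))) (z ψ) :=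
    hG.comp_hasDerivAt (z ψ) p3
  rw [q2.deriv, q3.deriv]
  refine q1.congr_deriv ?_
  have : ((1 : ℂ), z') = ((1 : ℂ), (0 : ℂ)) + z' • ((0 : ℂ), (1 : ℂ)) := by simp
  rw [this, map_add, map_smul, smul_eq_mul]

theorem qq_deriv {z : ℂ → ℂ} {ψ z' : ℂ} (hz : HasDerivAt z z' ψ) :
    HasDerivAt (fun t : ℂ => qq (-2) (fun _ => 0) (z t))
      ((Complex.I * (-2) * z ψ / (2 * π) + Complex.I) * z') ψ := by
  have hp : (π : ℂ) ≠ 0 := by exact_mod_cast Real.pi_ne_zero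
  have t1 := (((hz.fun_pow 2).const_mul (Complex.I * (-2))).div_const (4 * π : ℂ)).fun_add
    (hz.const_mul Complex.I)
  have t2 : (fun t : ℂ => qq (-2) (fun _ => 0) (z t)) = fun t : ℂ =>
      Complex.I * (-2) * z t ^ 2 / (4 * π) + Complex.I * z t := by
    funext t
    unfold qq
    push_cast
    ring
  rw [t2]
  refine t1.congr_deriv ?_
  push_cast
  field_simp
  ring

theorem main {r₁ : ℝ} (hr₁ : 0 < r₁)
    (san : DifferentiableOn ℂ (fun p : ℂ × ℂ => sg p.1 p.2) (Rc r₁ r₁ ×ˢ ball (zc' 0) r₁))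
    (sder2 : ∀ ψ ∈ Rc r₁ r₁, ∀ φ ∈ ball (zc' 0) r₁,
      HasDerivAt (fun z => sg ψ z) (-(1 / (2 * π)) * Lg (2 * π * dst ψ φ) φ) φ)
    (g : ℝ) (hg : 0 < g) : ∃ (r : ℝ) (k : ℂ), 0 < r ∧ r ≤ 1 / 10 ∧ k.re = 0 ∧
  ∀ ψ ∈ Rc r r, ‖zc' ψ - zc' 0‖ ≤ g ∧
    Complex.I * (-2) * zc' ψ / (2 * π) + Complex.I + deriv (fun w => sg ψ w) (zc' ψ) = 0 ∧
    FC' ψ + k = qq (-2) (fun _ => 0) (zc' ψ) + sg ψ (zc' ψ) ∧
    HasDerivAt FC' (deriv (fun w => sg w (zc' ψ)) ψ) ψ := by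
  obtain ⟨ε, hε, hball⟩ := Metric.eventually_nhds_iff_ball.1 (near0 (min g r₁) (lt_min hg hr₁))
  obtain ⟨r, hr0, hrr1, hr10, hrε⟩ : ∃ r : ℝ, 0 < r ∧ r ≤ r₁ ∧ r ≤ 1 / 10 ∧ r ≤ ε / 2 :=
    ⟨min (ε / 2) (min r₁ (1 / 10)), lt_min (by linarith) (lt_min hr₁ (by norm_num)),
      (min_le_right _ _).trans (min_le_left _ _), (min_le_right _ _).trans (min_le_right _ _),
      min_le_left _ _⟩
  have hin : ∀ ψ ∈ Rc r r, ψ ∈ ball (0 : ℂ) ε := by
    intro ψ hψ
    rw [mem_ball_zero_iff]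
    have := Complex.norm_le_abs_re_add_abs_im ψ
    have h1 := hψ.1
    have h2 := hψ.2
    linarith
  refine ⟨r, EE (zc' 0), hr0, hr10, EE_re zc_zero_mem, ?_⟩
  intro ψ hψ
  obtain ⟨a1, a2, a3, a4, a5⟩ := hball ψ (hin ψ hψ)
  have hb : zc' ψ ∈ ball (zc' 0) r₁ := by
    rw [mem_ball_iff_norm]
    exact lt_of_lt_of_le a4 (min_le_right _ _)
  have hcrit := crit a3 a5 (sder2 ψ (Rc_mono9 hrr1 hψ) _ hb)
  refine ⟨a4.le.trans (min_le_left _ _), hcrit, ?_, ?_⟩
  · rw [key a3 a5]; ring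
  -- the derivative
  have hopen : IsOpen (Rc r₁ r₁ ×ˢ ball (zc' 0) r₁) := (isOpen_Rc _ _).prod isOpen_ball
  have hmem : (ψ, zc' ψ) ∈ Rc r₁ r₁ ×ˢ ball (zc' 0) r₁ := ⟨Rc_mono9 hrr1 hψ, hb⟩
  have hG := ((san _ hmem).differentiableAt (hopen.mem_nhds hmem)).hasFDerivAt
  have hz := (zc_diff a1 a2).hasDerivAt
  have q1 := chain hG hz
  have q5 := qq_deriv hz
  have q6 := (q5.fun_add q1).sub_const (EE (zc' 0))
  have hev : FC' =ᶠ[𝓝 ψ] fun t => qq (-2) (fun _ => 0) (zc' t) + sg t (zc' t) - EE (zc' 0) := by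
    filter_upwards [(isOpen_Rc r r).mem_nhds hψ] with t ht
    obtain ⟨b1, b2, b3, b4, b5⟩ := hball t (hin t ht)
    exact key b3 b5
  have q7 := q6.congr_of_eventuallyEq hev
  refine q7.congr_deriv ?_
  linear_combination (deriv zc' ψ) * hcrit

end Pool.Agent.N566.VS
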